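import Pool.Agent.MP_3ce0a0_al.Q2T9.Out
import Pool.Agent.MP_3ce0a0_al.Q2T7.Defs
import Pool.Agent.MP_3ce0a0_al.Q2T15.G1
import Pool.Agent.MP_3ce0a0_al.Q2T4A.Alg

/-! Proposition D applied to the centraliser of an outer automorphism. -/

set_option autoImplicit false

namespace Pool.Agent.MP_3ce0a0_al.Q2T9

open Pool.Agent.MP_3ce0a0_al.H79 Pool.Agent.MP_3ce0a0_al.Q2T1 Pool.Agent.MP_3ce0a0_al.Q2T15
open Subgroup

noncomputable section

namespace AdAux

variable {F : Type} [Group F]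

/-- The lifts of the centraliser of `φ`. -/
abbrev Ch (φ : Out F) : Subgroup (MulAut F) := (centralizer {φ}).comap (mkOut F)

/-- Inner automorphisms. -/
def io (φ : Out F) : F →* Ch φ :=
  (MulAut.conj : F →* MulAut F).codRestrict (Ch φ) fun g => by
    rw [mem_comap, mkOut_conj]
    exact one_mem _

/-- The projection to the centraliser. -/
def pr (φ : Out F) : Ch φ →* centralizer {φ} :=
  ((mkOut F).comp (Ch φ).subtype).codRestrict _ fun b => b.2

theorem coe_io (φ : Out F) (g : F) : (io φ g : MulAut F) = MulAut.conj g := rfl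

theorem coe_pr (φ : Out F) (b : Ch φ) : (pr φ b : Out F) = mkOut F b := rfl

theorem mem_range {φ : Out F} {b : Ch φ} : b ∈ (io φ).range ↔ mkOut F b = 1 := by
  rw [mkOut_eq_one]
  exact ⟨fun ⟨g, hg⟩ => ⟨g, congrArg Subtype.val hg⟩, fun ⟨g, hg⟩ => ⟨g, Subtype.ext hg⟩⟩

theorem range_eq (φ : Out F) : (io φ).range = (pr φ).ker := by
  ext b
  rw [mem_range, MonoidHom.mem_ker, ← coe_pr]
  exact OneMemClass.coe_eq_one

instance (φ : Out F) : (io φ).range.Normal := by
  rw [range_eq]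
  infer_instance

theorem pr_surj (φ : Out F) : Function.Surjective (pr φ) := fun c => by
  obtain ⟨b, hb⟩ := mkOut_surjective F c
  exact ⟨⟨b, by rw [mem_comap, hb]; exact c.2⟩, Subtype.ext hb⟩

theorem io_apply (φ : Out F) (b : Ch φ) (g : F) :
    io φ ((b : MulAut F) g) = b * io φ g * b⁻¹ := by
  apply Subtype.ext
  ext y
  simp [coe_io]

theorem lift_iff {φ : Out F} {a : Ch φ} (ha : mkOut F a = φ) {N : ℕ} {b : Ch φ} :
    Q2T7.Lift (io φ).range a N b ↔ mkOut F b = φ ^ N := by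
  rw [Q2T7.Lift, mem_range, coe_mul, coe_inv, coe_pow, map_mul, map_inv, map_pow, ha,
    mul_inv_eq_one]

theorem starU {φ : Out F} {a : Ch φ} (ha : mkOut F a = φ) (h : φ ∈ centralizer {φ})
    (hs : Star (⟨φ, h⟩ : centralizer {φ})) : Q2T7.StarU (io φ).range a := by
  intro H hH f hf b M hb
  have hr : ((pr φ).comp H.subtype).range.FiniteIndex := by
    rw [MonoidHom.range_comp, range_subtype]
    refine ⟨?_⟩
    rw [index_map, ← range_eq, MonoidHom.range_eq_top.2 (pr_surj φ), index_top, mul_one]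
    exact hH.index_ne_zero
  refine hs.apply _ hr f (fun z hz => hf z ?_) (j := M) ?_
  · rw [range_eq]
    exact hz
  · apply Subtype.ext
    rw [zpow_natCast, coe_pow]
    exact (lift_iff ha).1 hb

theorem hasTree {φ : Out F} (hinj : Function.Injective (io φ)) {a : Ch φ} (ha : mkOut F a = φ)
    {T : Type} [MetricSpace T] [IsSimp T] [MulAction (Ch φ) T] [IsIsometricSMul (Ch φ) T]
    (hD : Q2T7.Dehn (io φ).range a T) : HasTree φ fun _ => True := by
  let i3 : MulAction F T := MulAction.compHom T (io φ)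
  have hsm : ∀ (g : F) (x : T), g • x = io φ g • x := fun _ _ => rfl
  have i4 : IsIsometricSMul F T := ⟨fun g => isometry_smul T (io φ g)⟩
  have hmem : ∀ g : F, io φ g ∈ (io φ).range := fun g => ⟨g, rfl⟩
  obtain ⟨N, hN, al, hal, hal'⟩ := hD.tw
  refine ⟨T, inferInstance, inferInstance, i3, i4, N, fun v => (al v : MulAut F), hD.ne,
    ⟨?_, ?_, ?_, hN, ?_, ?_, ?_, ?_, ?_⟩, ?_, ?_, fun _ _ => trivial⟩
  · obtain ⟨R, hR, hcov⟩ := hD.co.finE
    refine ⟨R, hR, fun x y hxy => ?_⟩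
    obtain ⟨_, ⟨g, rfl⟩, hg⟩ := hcov x y hxy
    exact ⟨_, hg, g⁻¹, (inv_smul_smul g x).symm, (inv_smul_smul g y).symm⟩
  · intro x y hxy
    obtain ⟨_, ⟨⟨c, rfl⟩, h1, h2⟩, h3⟩ := hD.edge x y hxy
    have hz : ∀ g : F, io φ g ∈ zpowers (io φ c) ↔ g ∈ zpowers c := fun g => by
      rw [← MonoidHom.map_zpowers, mem_map_iff_mem hinj]
    refine ⟨c, ⟨fun e => h1 (by rw [e, map_one]), fun g hg =>
      (hz g).1 (h2 _ (hmem g) (hg.map _))⟩, fun g => ?_⟩
    rw [← hz, ← h3]
    exact ⟨fun h => ⟨⟨hmem g, h.1⟩, ⟨hmem g, h.2⟩⟩, fun h => ⟨h.1.2, h.2.2⟩⟩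
  · intro v
    obtain ⟨_, ⟨⟨g, rfl⟩, hg⟩, _, ⟨⟨h, rfl⟩, hh⟩, hc⟩ := hD.nab v
    exact ⟨g, h, hg, hh, fun e => hc (e.map _)⟩
  · exact fun v => (lift_iff ha).1 (hal v).1
  · intro v g hg
    apply hinj
    rw [io_apply, ((hal v).2.2 _ ⟨hmem g, hg⟩).mul_inv_cancel]
  · intro x y hxy
    have h1 : al y * (al x)⁻¹ ∈ (io φ).range := by
      rw [mem_range, coe_mul, coe_inv, map_mul, map_inv, (lift_iff ha).1 (hal x).1,
        (lift_iff ha).1 (hal y).1, mul_inv_cancel]
    obtain ⟨u, hu⟩ := h1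
    have hx := (hal x).2.1
    have hy := (hal y).2.1
    obtain ⟨hxy1, hne⟩ := hal' x y hxy
    obtain ⟨hyx1, -⟩ := hal' y x (by rw [dist_comm, hxy])
    refine ⟨u, fun e => hne ?_, ?_, ?_, ?_⟩
    · rw [e, map_one, eq_comm, mul_inv_eq_one] at hu
      exact hu.symm
    · rw [hsm, hu, mul_smul, inv_smul_eq_iff.2 hx.symm, hyx1]
    · rw [hsm, hu, mul_smul, inv_smul_eq_iff.2 hxy1.symm, hy]
    · rw [← coe_io φ, hu]
      simp
  · intro v
    refine ⟨fun x => al v • x, fun x y z => BAct.btw (al v) x y z, fun g x => ?_, (hal v).2.1,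
      fun y hy => (hal' v y hy).1⟩
    simp only [hsm, io_apply, mul_smul, inv_smul_smul]
  · rintro g ⟨M, hM, β, hβ, hg⟩
    have hb : β ∈ Ch φ := by
      rw [mem_comap, hβ]
      exact pow_mem (self_mem_centralizer φ) M
    refine hD.per _ (hmem g) ⟨M, hM, ⟨β, hb⟩, (lift_iff ha).2 hβ, ?_⟩
    have := io_apply φ ⟨β, hb⟩ g
    rw [hg, eq_mul_inv_iff_mul_eq] at this
    exact this.symm
  · exact fun g _ x => hD.ninv _ (hmem g) x
  · intro v
    have h1 : (MulAction.stabilizer F v).map (io φ) = Q2T7.St (io φ).range v := by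
      ext b
      constructor
      · rintro ⟨g, hg, rfl⟩
        exact ⟨hmem g, hg⟩
      · rintro ⟨⟨g, rfl⟩, hg⟩
        exact ⟨g, hg, rfl⟩
    have h2 := hD.fg v
    rw [← h1, ← Group.fg_iff_subgroup_fg] at h2
    rw [← Group.fg_iff_subgroup_fg]
    exact Group.fg_of_surjective
      (f := ((MulAction.stabilizer F v).equivMapOfInjective _ hinj).symm.toMonoidHom)
      (MulEquiv.surjective _)

end AdAux

open AdAux

theorem propDOut_of (hD : Q2T7.PropD) : PropDOut := by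
  intro β _ _ φ hs
  have hinj : Function.Injective (io φ) := by
    rw [injective_iff_map_eq_one]
    intro g hg
    refine Q2T4A.free_center g fun c => ?_
    have := DFunLike.congr_fun (congrArg Subtype.val hg) (FreeGroup.of c)
    simp only [coe_io, MulAut.conj_apply, OneMemClass.coe_one, MulAut.one_apply] at this
    exact (mul_inv_eq_iff_eq_mul.1 this).symm
  obtain ⟨a, ha⟩ := pr_surj φ ⟨φ, self_mem_centralizer φ⟩
  have ha' : mkOut _ (a : MulAut (FreeGroup β)) = φ := congrArg Subtype.val ha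
  obtain ⟨T, _, _, _, _, hT⟩ := hD (Ch φ) (io φ).range (Nat.card β) a
    ⟨(MonoidHom.ofInjective hinj).symm.trans (FreeGroup.freeGroupCongr (Finite.equivFin β))⟩
    Finite.one_lt_card (fun b => by
      rw [mem_range, coe_mul, coe_mul, coe_mul, coe_inv, coe_inv, map_mul, map_mul, map_mul,
        map_inv, map_inv, ha', ← mem_centralizer_singleton_iff.1 b.2]
      group) (starU ha' (self_mem_centralizer φ) (hs _))
  exact hasTree hinj ha' hT

end

end Pool.Agent.MP_3ce0a0_al.Q2T9
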