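import Pool.Agent.MP_3ce0a0_al.Q2T9.Spec
import Pool.Agent.MP_3ce0a0_al.Q2T4M.Cay

/-! Bounded cancellation. -/

set_option autoImplicit false

namespace Pool.Agent.MP_3ce0a0_al.Q2T9

open Pool.Agent.MP_3ce0a0_al.Q2T4M

theorem bcl : RowH4 → RowBCL := by
  intro _ α _ _ β K
  obtain ⟨L, h1, h2⟩ := exists_bilip β
  refine ⟨L * K + 2 * (L * L), fun x y h => ?_⟩
  obtain ⟨m, a1, a2, a3⟩ := med 1 x y
  have b1 := qi_bt β L β.surjective h1 h2 a2
  have b2 := dn_tri 1 (β m) (β x)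
  have b3 := dn_tri 1 (β m) (β y)
  have b4 := h1 1 m
  rw [map_one] at b4
  rw [dn_comm (β x) (β m)] at b1
  rw [Bt] at a1 a2 a3
  rw [dn_comm x m] at a2
  have e : ∀ u v : FreeGroup α, gp u v = (dn 1 u : ℤ) + dn 1 v - dn u v := fun u v => by
    simp [gp, dn]
  rw [e] at h ⊢
  have c1 : 2 * (dn 1 m : ℤ) ≤ K := by omega
  have c2 := mul_le_mul_of_nonneg_left c1 (Int.natCast_nonneg L)
  zify at b1 b2 b3 b4
  linarith

end Pool.Agent.MP_3ce0a0_al.Q2T9
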