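import Pool.Agent.MP_3ce0a0_al.Q2T9.Spec
import Pool.Agent.MP_3ce0a0_al.Q2T15.Basic

/-! Calculus of the variation of the displacement along the axis. -/

set_option autoImplicit false

namespace Pool.Agent.MP_3ce0a0_al.Q2T9

open Pool.Agent.MP_3ce0a0_al.H79 Pool.Agent.MP_3ce0a0_al.Q2T1 Pool.Agent.MP_3ce0a0_al.Q2T15
open Subgroup

namespace DCAux

variable {α : Type} [DecidableEq α] {c : FreeGroup α} {β γ : MulAut (FreeGroup α)} {K K' : ℝ}

omit [DecidableEq α] in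
theorem out_map (ψ : MulAut (FreeGroup α)) {g : FreeGroup α} (hg : g ∉ zpowers c) :
    ψ g ∉ zpowers (ψ c) := by
  rintro ⟨k, hk⟩
  exact hg ⟨k, ψ.injective (by rw [map_zpow]; exact hk)⟩

omit [DecidableEq α] in
theorem out_fix (h : γ c = c) {g : FreeGroup α} (hg : g ∉ zpowers c) : γ g ∉ zpowers c := by
  have := out_map γ hg
  rwa [h] at this

omit [DecidableEq α] in
theorem inv_fix (h : β c = c) : β⁻¹ c = c := by
  rw [MulAut.inv_apply, MulEquiv.symm_apply_eq, h]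

omit [DecidableEq α] in
theorem pow_fix (h : β c = c) (q : ℕ) : (β ^ q) c = c := by
  induction q with
  | zero => rfl
  | succ q ih => rw [pow_succ, MulAut.mul_apply, h, ih]

theorem dl_iff : DlLe c β K ↔ ∀ g g', g ∉ zpowers c → g' ∉ zpowers c →
    ((pos c (β g) : ℝ) - pos c g) - (pos c (β g') - pos c g') ≤ K := by
  refine ⟨fun h g g' hg hg' => ?_, fun h g g' hg hg' => ?_⟩
  · have := h g g' hg hg'
    push_cast at this
    exact (abs_le.1 this).2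
  · have h1 := h g g' hg hg'
    have h2 := h g' g hg' hg
    push_cast
    exact abs_le.2 ⟨by linarith, h1⟩

theorem real_le {a b K : ℤ} (h : |a - b| ≤ K) : (a : ℝ) - b ≤ K ∧ (b : ℝ) - a ≤ K := by
  have h1 : ((|a - b| : ℤ) : ℝ) ≤ K := by exact_mod_cast h
  push_cast at h1
  exact ⟨(abs_le.1 h1).2, by linarith [(abs_le.1 h1).1]⟩

theorem mono (h : DlLe c β K) (hK : K ≤ K') : DlLe c β K' :=
  fun g g' hg hg' => (h g g' hg hg').trans hK

theorem ex (P : PC α) (hc : c ≠ 1) (h : β c = c) : ∃ K, DlLe c β K := by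
  obtain ⟨K, hK⟩ := P.p2 β c hc
  rw [h] at hK
  refine ⟨K + K, dl_iff.2 fun g g' _ _ => ?_⟩
  linarith [(real_le (hK g)).1, (real_le (hK g')).2]

theorem mul (h : γ c = c) (h1 : DlLe c β K) (h2 : DlLe c γ K') : DlLe c (β * γ) (K + K') := by
  refine dl_iff.2 fun g g' hg hg' => ?_
  simp only [MulAut.mul_apply]
  linarith [dl_iff.1 h1 _ _ (out_fix h hg) (out_fix h hg'), dl_iff.1 h2 _ _ hg hg']

theorem inv (h : β c = c) (h1 : DlLe c β K) : DlLe c β⁻¹ K := by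
  refine dl_iff.2 fun g g' hg hg' => ?_
  have := dl_iff.1 h1 _ _ (out_fix (inv_fix h) hg') (out_fix (inv_fix h) hg)
  simp only [MulAut.apply_inv_self] at this
  linarith

theorem same (M : RowMal) (P : PC α) (hc : RF c) : ∃ K₀ : ℝ,
    ∀ (β γ : MulAut (FreeGroup α)) (K : ℝ), β c = c → γ c = c → mkOut _ β = mkOut _ γ →
      DlLe c β K → DlLe c γ (K + K₀) := by
  obtain ⟨K₁, h1⟩ := P.p1 c hc.1
  obtain ⟨K₃, h3⟩ := P.p3 c c hc.1
  refine ⟨2 * (K₁ + K₃), fun β γ K hβ hγ he h => ?_⟩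
  obtain ⟨u, hu⟩ : ∃ u, ∀ g, γ g = u * β g * u⁻¹ := by
    obtain ⟨u, hu⟩ := mkOut_eq_iff.1 he.symm
    exact ⟨u, fun g => by rw [hu]; rfl⟩
  obtain ⟨k, rfl⟩ := hc.2 u (by
    have := hu c
    rw [hβ, hγ] at this
    exact mul_inv_eq_iff_eq_mul.1 this.symm)
  have key : ∀ g, g ∉ zpowers c → (pos c (γ g) : ℝ) - pos c (β g) - k ≤ K₁ + K₃ ∧
      k - ((pos c (γ g) : ℝ) - pos c (β g)) ≤ K₁ + K₃ := fun g hg => by
    have a := real_le (h1 (β g * c ^ (-k)) k)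
    have b := real_le (h3 (β g) (-k) fun hh => out_fix hβ hg (M α c _ hc hh))
    rw [← mul_assoc, zpow_neg, ← hu] at a
    rw [zpow_neg] at b
    push_cast at a
    constructor <;> linarith [a.1, a.2, b.1, b.2]
  refine dl_iff.2 fun g g' hg hg' => ?_
  linarith [dl_iff.1 h _ _ hg hg', (key g hg).1, (key g' hg').2]

theorem conj (P : PC α) (ψ : MulAut (FreeGroup α)) (hc : c ≠ 1) : ∃ K₀ : ℝ,
    ∀ (β : MulAut (FreeGroup α)) (K : ℝ), DlLe c β K → DlLe (ψ c) (ψ * β * ψ⁻¹) (K + K₀) := by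
  obtain ⟨K₂, h2⟩ := P.p2 ψ c hc
  refine ⟨4 * K₂, fun β K h => dl_iff.2 fun g g' hg hg' => ?_⟩
  obtain ⟨g, rfl⟩ := ψ.surjective g
  obtain ⟨g', rfl⟩ := ψ.surjective g'
  have o : ∀ x, ψ x ∉ zpowers (ψ c) → x ∉ zpowers c := fun x hx ⟨k, hk⟩ =>
    hx ⟨k, by rw [← hk, map_zpow]⟩
  simp only [MulAut.mul_apply, MulAut.inv_apply_self]
  linarith [dl_iff.1 h _ _ (o _ hg) (o _ hg'), (real_le (h2 (β g))).1, (real_le (h2 g)).2,
    (real_le (h2 (β g'))).2, (real_le (h2 g')).1]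

theorem crit (M : RowMal) (P : PC α) {φ : Out (FreeGroup α)} {N : ℕ} {r : ℝ} (hc : RF c)
    (hN : 0 < N) (he : mkOut _ β = φ ^ N) (hβ : β c = c) (hr : 0 ≤ r)
    (h : ∀ q : ℕ, DlLe c (β ^ q) (r * (q * N) + K)) : r ∈ Slopes c φ := by
  obtain ⟨K₀, h0⟩ := same M P hc
  have h1 : ∀ s : Fin N, ∃ B : ℝ, (∃ δ : MulAut (FreeGroup α), mkOut _ δ = φ ^ (s : ℕ) ∧ δ c = c) →
      ∃ δ : MulAut (FreeGroup α), mkOut _ δ = φ ^ (s : ℕ) ∧ δ c = c ∧ DlLe c δ B := fun s => by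
    by_cases hs : ∃ δ : MulAut (FreeGroup α), mkOut _ δ = φ ^ (s : ℕ) ∧ δ c = c
    · obtain ⟨δ, h2, h3⟩ := hs
      obtain ⟨B, hB⟩ := ex P hc.1 h3
      exact ⟨B, fun _ => ⟨δ, h2, h3, hB⟩⟩
    · exact ⟨0, fun h => absurd h hs⟩
  choose B hB using h1
  obtain ⟨B₀, hB₀⟩ := (Set.finite_range B).bddAbove
  refine ⟨hr, K + B₀ + K₀, fun j γ hγ hγc => ?_⟩
  have hj : N * (j / N) + j % N = j := Nat.div_add_mod j N
  have hq : mkOut _ (β ^ (j / N)) = φ ^ (N * (j / N)) := by rw [map_pow, he, ← pow_mul]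
  obtain ⟨δ, h2, h3, h4⟩ := hB ⟨j % N, Nat.mod_lt j hN⟩ ⟨(β ^ (j / N))⁻¹ * γ, by
    rw [map_mul, map_inv, hq, hγ, inv_mul_eq_iff_eq_mul, ← pow_add, hj], by
    rw [MulAut.mul_apply, hγc, inv_fix (pow_fix hβ _)]⟩
  refine mono (h0 _ γ _ (by rw [MulAut.mul_apply, h3, pow_fix hβ]) hγc
    (by rw [map_mul, hq, h2, ← pow_add, hj, hγ]) (mul h3 (h (j / N)) h4)) ?_
  have h5 : ((j / N : ℕ) : ℝ) * N ≤ j := by exact_mod_cast Nat.div_mul_le_self j N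
  linarith [mul_le_mul_of_nonneg_left h5 hr, hB₀ (Set.mem_range_self ⟨j % N, Nat.mod_lt j hN⟩)]

theorem ne (M : RowMal) (P : PC α) {φ : Out (FreeGroup α)} (hc : RF c) (hp : Per c φ) :
    (Slopes c φ).Nonempty := by
  obtain ⟨N, hN, β, he, hβ⟩ := hp
  obtain ⟨K, hK⟩ := ex P hc.1 hβ
  have hN' : (N : ℝ) ≠ 0 := Nat.cast_ne_zero.2 hN.ne'
  refine ⟨|K| / N, crit (K := 0) M P hc hN he hβ (by positivity) fun q => ?_⟩
  induction q with
  | zero => exact dl_iff.2 fun g g' _ _ => by simp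
  | succ q ih =>
    rw [pow_succ]
    refine mono (mul hβ ih (mono hK (le_abs_self K))) (le_of_eq ?_)
    push_cast
    field_simp
    ring

end DCAux

theorem dc : RowDCOf := fun M P α _ _ =>
  ⟨fun _ _ hc h => DCAux.ex (P α) hc h, fun _ _ _ _ _ h h1 h2 => DCAux.mul h h1 h2,
    fun _ _ _ h h1 => DCAux.inv h h1, fun _ hc => DCAux.same M (P α) hc,
    fun _ ψ hc => DCAux.conj (P α) ψ hc,
    fun _ _ _ _ _ _ hc hN he hβ hr h => DCAux.crit M (P α) hc hN he hβ hr h,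
    fun _ _ hc hp => DCAux.ne M (P α) hc hp⟩

end Pool.Agent.MP_3ce0a0_al.Q2T9
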