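import Pool.Agent.MP_3ce0a0_al.Q2T9.Spec
import Pool.Agent.MP_3ce0a0_al.Q2T4M.Cay

/-! The four-point condition for Gromov products in a free group. -/

set_option autoImplicit false

namespace Pool.Agent.MP_3ce0a0_al.Q2T9

theorem h4 : RowH4 := by
  intro α _ x y z
  have h := Q2T4M.four_one x z y
  rw [Q2T4M.dn_comm z y] at h
  simp only [Q2T4M.dn] at h
  simp only [gp]
  omega

end Pool.Agent.MP_3ce0a0_al.Q2T9
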