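import Pool.Agent.MP_3ce0a0_al.Q2T9.Spec

/-! The abstract form of Proposition L. -/

set_option autoImplicit false

namespace Pool.Agent.MP_3ce0a0_al.Q2T9

namespace LAux

/-- Seminorms on a commutative group. -/
structure SN {A : Type} [CommGroup A] (W : A → ℝ) : Prop where
  nn : ∀ a, 0 ≤ W a
  add : ∀ a b, W (a * b) ≤ W a + W b
  zp : ∀ a (k : ℤ), W (a ^ k) = |(k : ℝ)| * W a

section SN

variable {A : Type} [CommGroup A] {W : A → ℝ} (h : SN W)

include h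

theorem SN.inv (a : A) : W a⁻¹ = W a := by
  have := h.zp a (-1)
  simpa using this

theorem SN.pw (a : A) (k : ℕ) : W (a ^ k) = k * W a := by
  have := h.zp a k
  simpa using this

theorem SN.null {x : A} (hx : W x = 0) (u : A) : W (x * u) = W u := by
  have h1 := h.add x u
  have h2 := h.add x⁻¹ (x * u)
  rw [inv_mul_cancel_left, h.inv] at h2
  linarith

theorem SN.core {x y z : A} (hx : W x = 0)
    (H : ∀ b : ℕ, b * W (x ^ b * (y * z)⁻¹) + W ((x * z) ^ b * y⁻¹) ≤ (b + 1) * W (x ^ b * y⁻¹)) :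
    W (y * z) + W z ≤ W y := by
  have key : ∀ b : ℕ, b * (W (y * z) + W z - W y) ≤ 2 * W y := fun b => by
    have hb : W (x ^ b) = 0 := by rw [h.pw, hx, mul_zero]
    have h1 := H b
    rw [h.null hb, h.null hb, mul_pow, mul_assoc, h.null hb, h.inv, h.inv] at h1
    have h2 := h.add (z ^ b * y⁻¹) y
    rw [inv_mul_cancel_right, h.pw] at h2
    linarith
  by_contra hc
  have hp : 0 < W (y * z) + W z - W y := by linarith
  obtain ⟨b, hb⟩ := exists_nat_gt (2 * W y / (W (y * z) + W z - W y))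
  rw [div_lt_iff₀ hp] at hb
  linarith [key b]

theorem SN.tri {x y z : A} (h1 : W (x * y) = 0) (h2 : W (x * z) = 0) (h3 : W (y * z) = 0) :
    W x = 0 := by
  have e : x ^ 2 = x * y * (x * z * (y * z)⁻¹) := by
    apply Additive.ofMul.injective
    simp only [ofMul_mul, ofMul_pow, ofMul_inv]
    module
  have h4 := h.pw x 2
  rw [e, h.null h1, h.null h2, h.inv, h3] at h4
  have : (2 : ℝ) * W x = 0 := by exact_mod_cast h4.symm
  linarith

theorem SN.mid (x y z : A) (b : ℕ) : (b + 1) * W (x ^ b * y⁻¹) ≤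
    b * W (x ^ b * (y * z)⁻¹) + W ((x * z) ^ b * y⁻¹) := by
  have e : (x ^ b * y⁻¹) ^ (b + 1) = (x ^ b * (y * z)⁻¹) ^ b * ((x * z) ^ b * y⁻¹) := by
    apply Additive.ofMul.injective
    simp only [ofMul_mul, ofMul_pow, ofMul_inv]
    module
  have h1 := h.pw (x ^ b * y⁻¹) (b + 1)
  have h2 := h.add ((x ^ b * (y * z)⁻¹) ^ b) ((x * z) ^ b * y⁻¹)
  rw [← e, h1, h.pw] at h2
  exact_mod_cast h2

end SN

theorem per {Γ C : Type} [Group Γ] [MulAction Γ C] {X : Set C} (hX : X.Finite) (a : Γ)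
    (ha : ∀ c ∈ X, a • c ∈ X) {c : C} (hc : c ∈ X) : ∃ N : ℕ, 0 < N ∧ a ^ N • c = c := by
  have hm : ∀ n : ℕ, a ^ n • c ∈ X := fun n => by
    induction n with
    | zero => simpa using hc
    | succ n ih => rw [pow_succ', mul_smul]; exact ha _ ih
  obtain ⟨m, n, hlt, he⟩ := hX.exists_lt_map_eq_of_forall_mem hm
  obtain ⟨k, rfl⟩ := Nat.exists_eq_add_of_lt hlt
  refine ⟨k + 1, Nat.succ_pos k, ?_⟩
  rw [add_assoc, pow_add, mul_smul] at he
  exact (smul_left_cancel _ he).symm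

theorem sum_le {Γ C : Type} [Group Γ] [MulAction Γ C] (X : Finset C) (f g : C → ℝ) (ψ : Γ)
    (hf : ∀ c, 0 ≤ f c) (hg : ∀ c, g c = f (ψ • c)) (hm : ∀ c ∈ X, 0 < g c → ψ • c ∈ X) :
    ∑ c ∈ X, g c ≤ ∑ c ∈ X, f c := by
  classical
  have e : ∑ c ∈ X, g c = ∑ c ∈ X.filter (fun c => 0 < g c), g c := by
    rw [Finset.sum_filter]
    refine Finset.sum_congr rfl fun c _ => ?_
    split_ifs with h
    · rfl
    · exact le_antisymm (not_lt.1 h) (by rw [hg]; exact hf _)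
  rw [e, Finset.sum_congr rfl fun c _ => hg c,
    ← Finset.sum_image (s := X.filter fun c => 0 < g c) (g := fun c => ψ • c) (f := f)
      fun a _ b _ hab => smul_left_cancel ψ hab]
  refine Finset.sum_le_sum_of_subset_of_nonneg (fun c hc => ?_) fun c _ _ => hf c
  obtain ⟨a, ha, rfl⟩ := Finset.mem_image.1 hc
  exact hm a (Finset.mem_filter.1 ha).1 (Finset.mem_filter.1 ha).2

end LAux

open LAux in
theorem rowL : RowL := by
  intro Γ C ι κ _ _ _ w lt e hc hn hj ha hz hf hs hk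
  let A : Subgroup Γ := Subgroup.closure (Set.range e)
  have hcm : ∀ a ∈ Set.range e, ∀ b ∈ Set.range e, a * b = b * a := by
    rintro _ ⟨i, rfl⟩ _ ⟨j, rfl⟩
    exact hc i j
  letI : CommGroup A := Subgroup.closureCommGroupOfComm hcm
  let E : ι → A := fun i => ⟨e i, Subgroup.subset_closure ⟨i, rfl⟩⟩
  have hAA : ∀ a b : A, Commute (a : Γ) (b : Γ) := fun a b =>
    congrArg Subtype.val (mul_comm a b)
  have hX : {c | ∃ i, 0 < w c (e i)}.Finite := by
    refine (Set.finite_iUnion hf).subset fun c hc => ?_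
    exact Set.mem_iUnion.2 hc
  have hj' : ∀ (ψ : Γ) c φ, w c (ψ * φ * ψ⁻¹) = w (ψ⁻¹ • c) φ := fun ψ c φ => by
    rw [← hj ψ (ψ⁻¹ • c) φ, smul_inv_smul]
  have hper : ∀ (a : A) c, (∃ i, 0 < w c (e i)) → ∃ N : ℕ, 0 < N ∧ (a : Γ) ^ N • c = c :=
    fun a c h => per hX (a : Γ) (by
      rintro c ⟨i, hi⟩
      refine ⟨i, ?_⟩
      rw [← hj a c (e i), (hAA a (E i)).eq, mul_inv_cancel_right] at hi
      exact hi) h
  have hsn : ∀ c, (∃ i, 0 < w c (e i)) → SN fun a : A => w c a := fun c h =>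
    ⟨fun a => hn c a, fun a b => ha c a b (hper a c h) (hper b c h) (hAA a b),
      fun a k => hz c a k (hper a c h)⟩
  have hsum : ∀ (x y x' y' : A) (ψ : Γ) (p i : ι) (b : ℕ), x = E p → y = E i →
      ψ * x * ψ⁻¹ = x' → ψ * y * ψ⁻¹ = y' →
      ∑ c ∈ hX.toFinset, w c (x' ^ b * y'⁻¹ : A) ≤ ∑ c ∈ hX.toFinset, w c (x ^ b * y⁻¹ : A) := by
    intro x y x' y' ψ p i b hx hy h1 h2
    refine sum_le _ _ _ ψ⁻¹ (fun c => hn c _) (fun c => ?_) fun c hc h => ?_
    · rw [← hj']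
      congr 1
      change (x' : Γ) ^ b * (y' : Γ)⁻¹ = ψ * ((x : Γ) ^ b * (y : Γ)⁻¹) * ψ⁻¹
      rw [← h1, ← h2, conj_pow]
      group
    · rw [Set.Finite.mem_toFinset] at hc ⊢
      have S := hsn c hc
      have h3 := S.add (x' ^ b) y'⁻¹
      rw [S.pw, S.inv] at h3
      by_cases h4 : 0 < w c y'
      · rw [← h2, hj', hy] at h4
        exact ⟨i, h4⟩
      · have h5 : 0 < w c x' := by
          by_contra h6
          have h7 : w c x' = 0 := le_antisymm (not_lt.1 h6) (hn _ _)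
          rw [h7, mul_zero] at h3
          linarith
        rw [← h1, hj', hx] at h5
        exact ⟨p, h5⟩
  have hstep : ∀ c, (∃ i, 0 < w c (e i)) → ∀ p i j, lt i ≠ lt j → lt i ≠ lt p → lt j ≠ lt p →
      w c (e p) = 0 → w c (E i * E j : A) + w c (E j) ≤ w c (E i) := by
    intro c hc0 p i j hij hip hjp h0
    refine (hsn c hc0).core (x := E p) h0 fun b => ?_
    obtain ⟨ψ, hψ1, hψ2⟩ := hs i j p hij hip hjp
    obtain ⟨χ, hχ1, hχ2⟩ := hs p j i hjp.symm hip.symm hij.symm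
    have s1 := hsum (E p) (E i) (E p) (E i * E j) ψ p i b rfl rfl hψ2 hψ1
    have s2 := hsum (E p) (E i) (E p * E j) (E i) χ p i b rfl rfl hχ1 hχ2
    have hle : ∀ c ∈ hX.toFinset, (b + 1) * w c (E p ^ b * (E i)⁻¹ : A) ≤
        b * w c (E p ^ b * (E i * E j)⁻¹ : A) + w c ((E p * E j) ^ b * (E i)⁻¹ : A) :=
      fun c hc => (hsn c (hX.mem_toFinset.1 hc)).mid (E p) (E i) (E j) b
    have hge : ∑ c ∈ hX.toFinset, (b * w c (E p ^ b * (E i * E j)⁻¹ : A) +
        w c ((E p * E j) ^ b * (E i)⁻¹ : A)) ≤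
        ∑ c ∈ hX.toFinset, (b + 1) * w c (E p ^ b * (E i)⁻¹ : A) := by
      rw [Finset.sum_add_distrib, ← Finset.mul_sum, ← Finset.mul_sum]
      have hb : (0 : ℝ) ≤ b := Nat.cast_nonneg b
      nlinarith [mul_le_mul_of_nonneg_left s1 hb]
    have heq := (Finset.sum_eq_sum_iff_of_le hle).1 (le_antisymm (Finset.sum_le_sum hle) hge)
    exact (heq c (hX.mem_toFinset.2 hc0)).ge
  have hpair : ∀ c, (∃ i, 0 < w c (e i)) → ∀ p i j, lt i ≠ lt j → lt i ≠ lt p → lt j ≠ lt p →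
      w c (e p) = 0 → w c (E i * E j : A) = 0 := by
    intro c hc0 p i j hij hip hjp h0
    have h1 := hstep c hc0 p i j hij hip hjp h0
    have h2 := hstep c hc0 p j i hij.symm hjp hip h0
    rw [mul_comm (E j) (E i)] at h2
    have h3 := hn c (E i * E j : A)
    linarith
  have hone : ∀ c, (∃ i, 0 < w c (e i)) → ∀ p i, lt i ≠ lt p → w c (e p) = 0 → w c (e i) = 0 := by
    intro c hc0 p i hip h0
    obtain ⟨j, hj1, hj2, -⟩ := hk (lt p) (lt i) (lt i)
    obtain ⟨l, hl1, hl2, hl3⟩ := hk (lt p) (lt i) (lt j)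
    exact (hsn c hc0).tri (x := E i) (y := E j) (z := E l) (hpair c hc0 p i j hj2.symm hip hj1 h0)
      (hpair c hc0 p i l hl2.symm hip hl1 h0) (hpair c hc0 p j l hl3.symm hj1 hl1 h0)
  intro i j c hi
  by_contra hno
  have h0 : w c (e j) = 0 := le_antisymm (not_lt.1 hno) (hn _ _)
  obtain ⟨k, hk1, hk2, -⟩ := hk (lt i) (lt j) (lt j)
  have h1 := hone c ⟨i, hi⟩ j k hk2 h0
  have h2 := hone c ⟨i, hi⟩ k i hk1.symm h1
  linarith

end Pool.Agent.MP_3ce0a0_al.Q2T9
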