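import Pool.Agent.MP_3ce0a0_al.Q2T9.Spec

/-! Row Mal: the group generated by a root-free element is malnormal. -/

set_option autoImplicit false

namespace Pool.Agent.MP_3ce0a0_al.Q2T9

open Subgroup

namespace MalAux

theorem zp {G : Type} [Group G] [IsMulTorsionFree G] {c : G} (hc : c ≠ 1) {m : ℤ}
    (h : c ^ m = 1) : m = 0 := by
  by_contra hm
  exact hc (zpow_left_injective hm (by simpa using h))

theorem main {G : Type} [Group G] [IsMulTorsionFree G] (c g : G) (hc : RF c)
    (h : Commute c (g * c * g⁻¹)) : g ∈ zpowers c := by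
  obtain ⟨k, hk⟩ := mem_zpowers_iff.1 (hc.2 _ h.symm)
  have h2 : Commute (g⁻¹ * c * g) c := by
    have e := h.eq
    show g⁻¹ * c * g * c = c * (g⁻¹ * c * g)
    calc g⁻¹ * c * g * c = g⁻¹ * (c * (g * c * g⁻¹)) * g := by group
      _ = g⁻¹ * ((g * c * g⁻¹) * c) * g := by rw [e]
      _ = c * (g⁻¹ * c * g) := by group
  obtain ⟨l, hl⟩ := mem_zpowers_iff.1 (hc.2 _ h2)
  have h3 : c ^ (k * l - 1) = 1 := by
    rw [zpow_sub, zpow_mul, hk, conj_zpow, hl]; group
  have h4 : k * l = 1 := by have := zp hc.1 h3; omega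
  rcases Int.eq_one_or_neg_one_of_mul_eq_one h4 with rfl | rfl
  · refine hc.2 g ?_
    rw [zpow_one] at hk
    show g * c = c * g
    calc g * c = g * c * g⁻¹ * g := by group
      _ = c * g := by rw [← hk]
  · have h5 : Commute (g * g) c := by
      show g * g * c = c * (g * g)
      calc g * g * c = g * (g * c * g⁻¹) * g⁻¹ * (g * g) := by group
        _ = (g * c * g⁻¹) ^ (-1 : ℤ) * (g * g) := by nth_rewrite 1 [← hk]; group
        _ = c * (g * g) := by rw [← hk]; group
    obtain ⟨m, hm⟩ := mem_zpowers_iff.1 (hc.2 _ h5)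
    have h6 : c ^ (m + m) = 1 := by
      have e : g * c ^ m * g⁻¹ = c ^ m := by rw [hm]; group
      rw [← conj_zpow, ← hk, ← zpow_mul] at e
      rw [zpow_add]
      nth_rewrite 1 [← e]
      group
    have h7 : m = 0 := by have := zp hc.1 h6; omega
    have h8 : g = 1 := by
      by_contra hg
      have : (2 : ℤ) = 0 := zp hg (by rw [zpow_two, ← hm, h7, zpow_zero])
      omega
    rw [h8]; exact one_mem _

end MalAux

theorem mal : RowMal := fun _ c g hc h => MalAux.main c g hc h

end Pool.Agent.MP_3ce0a0_al.Q2T9
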