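import Pool.Agent.MP_3ce0a0_al.Q2T9.Spec

/-! Lengths of powers in a free group. -/

set_option autoImplicit false

namespace Pool.Agent.MP_3ce0a0_al.Q2T9

open FreeGroup FreeGroup.reduceCyclically

theorem np : RowNP := by
  intro α _ c hc
  refine ⟨2 * (conjugator c.toWord).length, (reduceCyclically c.toWord).length, ?_,
    fun i hi => ?_⟩
  · rw [List.length_pos_iff]
    intro h
    have e := congrArg mk (conj_conjugator_reduceCyclically c.toWord)
    rw [h, List.append_nil, ← mul_mk, ← inv_mk, mul_inv_cancel, mk_toWord] at e
    exact hc e.symm
  · rw [FreeGroup.norm, toWord_pow, reduce_flatten_replicate isReduced_toWord, if_neg hi.ne']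
    simp only [List.length_append, invRev_length, List.length_flatten, List.map_replicate,
      List.sum_replicate, smul_eq_mul]
    ring

end Pool.Agent.MP_3ce0a0_al.Q2T9
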