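import Pool.Agent.MP_3ce0a0_al.Q2T9.Spec

/-! Axes of non-commuting elements of a free group have bounded overlap. -/

set_option autoImplicit false

namespace Pool.Agent.MP_3ce0a0_al.Q2T9

namespace OVAux

variable {α : Type} [DecidableEq α]

theorem gp_comm (x y : FreeGroup α) : gp x y = gp y x := by
  have h : (x⁻¹ * y).norm = (y⁻¹ * x).norm := by
    rw [← FreeGroup.norm_inv_eq (x := x⁻¹ * y)]
    simp
  simp only [gp, h]
  ring

theorem gp_le (x y : FreeGroup α) : gp x y ≤ 2 * x.norm := by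
  have h := FreeGroup.norm_mul_le x (x⁻¹ * y)
  rw [mul_inv_cancel_left] at h
  simp only [gp]
  omega

theorem gp_one (y : FreeGroup α) : gp 1 y = 0 := by simp [gp]

theorem ex_pre (x : FreeGroup α) (n : ℕ) (hn : n ≤ x.norm) :
    ∃ z : FreeGroup α, z.norm = n ∧ gp z x = 2 * n := by
  have hx : FreeGroup.mk (x.toWord.take n) * FreeGroup.mk (x.toWord.drop n) = x := by
    rw [FreeGroup.mul_mk, List.take_append_drop, FreeGroup.mk_toWord]
  have hl : x.toWord.length = x.norm := rfl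
  have h1 : (FreeGroup.mk (x.toWord.take n)).norm ≤ n :=
    FreeGroup.norm_mk_le.trans (by simp)
  have h2 : (FreeGroup.mk (x.toWord.drop n)).norm ≤ x.norm - n :=
    FreeGroup.norm_mk_le.trans (by simp [hl])
  have h3 := FreeGroup.norm_mul_le (FreeGroup.mk (x.toWord.take n))
    (FreeGroup.mk (x.toWord.drop n))
  rw [hx] at h3
  have h4 : (FreeGroup.mk (x.toWord.take n))⁻¹ * x = FreeGroup.mk (x.toWord.drop n) := by
    rw [inv_mul_eq_iff_eq_mul, hx]
  refine ⟨FreeGroup.mk (x.toWord.take n), by omega, ?_⟩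
  simp only [gp, h4]
  omega

/-- `z` lies on the ray from `1` to the attracting end of `c`. -/
def Ray (c z : FreeGroup α) : Prop := ∃ K : ℕ, ∀ l : ℕ, K ≤ l → gp z (c ^ l) = 2 * z.norm

theorem pre_of (h4 : RowH4) {z x y : FreeGroup α} (h : gp z x = 2 * z.norm)
    (h' : 2 * (z.norm : ℤ) ≤ gp x y) : gp z y = 2 * z.norm := by
  have a := h4 α z x y
  have b := gp_le z y
  rw [h] at a
  have := min_eq_left h'
  omega

theorem Ray.cmp (h4 : RowH4) {c z z' : FreeGroup α} (h : Ray c z) (h' : Ray c z')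
    (hl : z'.norm ≤ z.norm) : gp z' z = 2 * z'.norm := by
  obtain ⟨K, hK⟩ := h
  obtain ⟨K', hK'⟩ := h'
  refine pre_of h4 (hK' (max K K') (le_max_right _ _)) ?_
  rw [gp_comm, hK _ (le_max_left _ _)]
  omega

theorem Ray.uniq (h4 : RowH4) {c z z' : FreeGroup α} (h : Ray c z) (h' : Ray c z')
    (hl : z'.norm = z.norm) : z' = z := by
  have a := h.cmp h4 h' hl.le
  have b : (z'⁻¹ * z).norm = 0 := by
    simp only [gp] at a
    omega
  exact inv_mul_eq_one.1 (FreeGroup.norm_eq_zero.1 b)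

theorem Ray.pre (h4 : RowH4) {c z z' : FreeGroup α} (h : Ray c z)
    (h' : gp z' z = 2 * z'.norm) : Ray c z' := by
  obtain ⟨K, hK⟩ := h
  refine ⟨K, fun l hl => pre_of h4 h' ?_⟩
  have a := gp_le z z'
  rw [gp_comm] at a
  rw [hK l hl]
  omega

theorem ray_of (h4 : RowH4) {c z : FreeGroup α} {s t k : ℕ}
    (hc : ∀ i : ℕ, 0 < i → (c ^ i).norm = s + t * i) (hk : 0 < k)
    (h : gp z (c ^ k) = 2 * z.norm) (hz : 2 * z.norm ≤ s + 2 * (t * k)) : Ray c z := by
  refine ⟨k + 1, fun l hl => pre_of h4 h ?_⟩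
  obtain ⟨m, rfl⟩ : ∃ m, l = k + (m + 1) := ⟨l - (k + 1), by omega⟩
  have e : (c ^ k)⁻¹ * c ^ (k + (m + 1)) = c ^ (m + 1) := by
    rw [pow_add, inv_mul_cancel_left]
  simp only [gp, e]
  rw [hc k hk, hc _ (by omega), hc _ (by omega), mul_add t k]
  omega

theorem Ray.step (h4 : RowH4) {c z : FreeGroup α} {s t : ℕ}
    (hc : ∀ i : ℕ, 0 < i → (c ^ i).norm = s + t * i) (h : Ray c z) (hz : s ≤ 2 * z.norm) :
    (c * z).norm = z.norm + t ∧ Ray c (c * z) := by
  obtain ⟨K, hK⟩ := h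
  have key : ∀ l : ℕ, K ≤ l → 0 < l →
      (c * z).norm = z.norm + t ∧ gp (c * z) (c ^ (l + 1)) = 2 * (c * z).norm := by
    intro l hl h0
    have e1 : (c * z)⁻¹ * c ^ (l + 1) = z⁻¹ * c ^ l := by
      rw [pow_succ']
      group
    have a1 := hK l hl
    have a2 := gp_le (c * z) (c ^ (l + 1))
    have a3 := h4 α c⁻¹ (c ^ l) z
    have n1 := hc 1 one_pos
    have nl := hc l h0
    have nl' := hc (l + 1) (by omega)
    rw [pow_one] at n1
    rw [mul_add] at nl'
    have a4 : gp c⁻¹ (c ^ l) = s := by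
      simp only [gp, inv_inv, FreeGroup.norm_inv_eq, ← pow_succ']
      omega
    rw [a4, gp_comm (c ^ l) z, a1, min_eq_left (by omega)] at a3
    simp only [gp, e1, inv_inv, FreeGroup.norm_inv_eq] at a1 a2 a3 ⊢
    omega
  refine ⟨(key (K + 1) (by omega) (by omega)).1, K + 2, fun l hl => ?_⟩
  obtain ⟨m, rfl⟩ : ∃ m, l = m + 1 := ⟨l - 1, by omega⟩
  exact (key m (by omega) (by omega)).2

theorem nat (h4 : RowH4) (np : RowNP) (c d : FreeGroup α) (h : ¬ Commute c d) :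
    ∃ K : ℤ, ∀ k i : ℕ, gp (c ^ k) (d ^ i) ≤ K := by
  have c1 : c ≠ 1 := by
    rintro rfl
    exact h (Commute.one_left d)
  have d1 : d ≠ 1 := by
    rintro rfl
    exact h (Commute.one_right c)
  obtain ⟨s, t, -, hc⟩ := np α c c1
  obtain ⟨s', t', -, hd⟩ := np α d d1
  refine ⟨3 * (s + s') + 2 * (t + t'), fun k i => ?_⟩
  rcases Nat.eq_zero_or_pos k with rfl | hk
  · rw [pow_zero, gp_one]
    positivity
  rcases Nat.eq_zero_or_pos i with rfl | hi
  · rw [pow_zero, gp_comm, gp_one]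
    positivity
  by_contra hlt
  rw [not_le] at hlt
  have b1 := gp_le (c ^ k) (d ^ i)
  have b2 := gp_le (d ^ i) (c ^ k)
  rw [gp_comm] at b2
  have nk := hc k hk
  have ni := hd i hi
  obtain ⟨z, hz, hzc⟩ := ex_pre (c ^ k) (s + s' + t + t') (by omega)
  rw [← hz] at hzc
  have hzd : gp z (d ^ i) = 2 * z.norm := pre_of h4 hzc (by omega)
  have rc : Ray c z := ray_of h4 hc hk hzc (by omega)
  have rd : Ray d z := ray_of h4 hd hi hzd (by omega)
  obtain ⟨y, hy, hyz⟩ := ex_pre z (s + s') (by omega)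
  rw [← hy] at hyz
  obtain ⟨p1, p2⟩ := (rc.pre h4 hyz).step h4 hc (by omega)
  obtain ⟨q1, q2⟩ := (rd.pre h4 hyz).step h4 hd (by omega)
  obtain ⟨p3, p4⟩ := (rd.pre h4 (rc.cmp h4 p2 (by omega))).step h4 hd (by omega)
  obtain ⟨q3, q4⟩ := (rc.pre h4 (rd.cmp h4 q2 (by omega))).step h4 hc (by omega)
  have e1 := rd.uniq h4 p4 (by omega)
  have e2 := rc.uniq h4 q4 (by omega)
  apply h
  have e : c * d * y = d * c * y := by rw [mul_assoc, mul_assoc, e1, e2]
  exact mul_right_cancel e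

theorem zpow_cases (c : FreeGroup α) (k : ℤ) : ∃ n : ℕ, c ^ k = c ^ n ∨ c ^ k = c⁻¹ ^ n := by
  obtain ⟨n, rfl | rfl⟩ := Int.eq_nat_or_neg k
  · exact ⟨n, Or.inl (zpow_natCast c n)⟩
  · exact ⟨n, Or.inr (by rw [zpow_neg, zpow_natCast, inv_pow])⟩

end OVAux

theorem ov : RowH4 → RowNP → RowOV := by
  intro h4 np α _ c d h
  obtain ⟨K1, h1⟩ := OVAux.nat h4 np c d h
  obtain ⟨K2, h2⟩ := OVAux.nat h4 np c⁻¹ d fun e => h (by simpa using e.inv_left)
  obtain ⟨K3, h3⟩ := OVAux.nat h4 np c d⁻¹ fun e => h (by simpa using e.inv_right)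
  obtain ⟨K4, h5⟩ := OVAux.nat h4 np c⁻¹ d⁻¹ fun e => h (by simpa using e.inv_inv)
  refine ⟨max (max K1 K2) (max K3 K4), fun k i => ?_⟩
  obtain ⟨n, e | e⟩ := OVAux.zpow_cases c k <;> obtain ⟨m, e' | e'⟩ := OVAux.zpow_cases d i <;>
    rw [e, e']
  · exact (h1 n m).trans ((le_max_left _ _).trans (le_max_left _ _))
  · exact (h3 n m).trans ((le_max_left _ _).trans (le_max_right _ _))
  · exact (h2 n m).trans ((le_max_right _ _).trans (le_max_left _ _))
  · exact (h5 n m).trans ((le_max_right _ _).trans (le_max_right _ _))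

end Pool.Agent.MP_3ce0a0_al.Q2T9
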