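import Pool.Agent.MP_3ce0a0_al.Q2T9.Spec

/-! Properties of the projection to the axis. -/

set_option autoImplicit false

namespace Pool.Agent.MP_3ce0a0_al.Q2T9

open FreeGroup

namespace PCAux

variable {α : Type} [DecidableEq α]

/-- `c ^ j` is near the projection of `g` to the axis of `c`. -/
def Near (c : FreeGroup α) (K : ℤ) (g : FreeGroup α) (j : ℤ) : Prop :=
  ∀ i : ℤ, gp (c ^ i) (c ^ (-j) * g) ≤ K

theorem gp_comm (x y : FreeGroup α) : gp x y = gp y x := by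
  have h : (x⁻¹ * y).norm = (y⁻¹ * x).norm := by
    rw [← norm_inv_eq, mul_inv_rev, inv_inv]
  simp only [gp, h]
  omega

theorem gp_one (y : FreeGroup α) : gp 1 y = 0 := by simp [gp]

theorem gp_mul_le (x y h : FreeGroup α) : gp x (y * h) ≤ gp x y + 2 * h.norm := by
  have h1 := norm_mul_le y h
  have h2 := norm_mul_le (x⁻¹ * (y * h)) h⁻¹
  have h3 : x⁻¹ * (y * h) * h⁻¹ = x⁻¹ * y := by group
  rw [h3, norm_inv_eq] at h2
  simp only [gp]
  omega

theorem abs_le_norm (hNP : RowNP) {c : FreeGroup α} (hc : c ≠ 1) (m : ℤ) :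
    |m| ≤ (c ^ m).norm := by
  obtain ⟨s, t, ht, h⟩ := hNP α c hc
  have key : ∀ n : ℕ, n ≤ (c ^ n).norm := fun n => by
    rcases Nat.eq_zero_or_pos n with rfl | hn
    · exact Nat.zero_le _
    · rw [h n hn]
      nlinarith
  obtain ⟨n, rfl | rfl⟩ := Int.eq_nat_or_neg m
  · rw [zpow_natCast, Nat.abs_cast]
    exact_mod_cast key n
  · rw [zpow_neg, zpow_natCast, norm_inv_eq, abs_neg, Nat.abs_cast]
    exact_mod_cast key n

theorem min_nat (h4 : RowH4) (hNP : RowNP) {c y : FreeGroup α} (hc : c ≠ 1)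
    (hy : y.norm ≤ (c⁻¹ * y).norm) (n : ℕ) : gp (c ^ n) y ≤ c.norm := by
  obtain ⟨s, t, ht, h⟩ := hNP α c hc
  have h1 : gp c y ≤ c.norm := by
    simp only [gp]
    omega
  rcases n with _ | _ | n
  · rw [pow_zero, gp_one]
    omega
  · rwa [zero_add, pow_one]
  · have h2 := h4 α c (c ^ (n + 1 + 1)) y
    have e1 := h 1 one_pos
    have e2 := h (n + 1 + 1) (by omega)
    have e3 := h (n + 1) (by omega)
    have e4 : c⁻¹ * c ^ (n + 1 + 1) = c ^ (n + 1) := by group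
    rw [pow_one] at e1
    have h3 : (c.norm : ℤ) < gp c (c ^ (n + 1 + 1)) := by
      rw [gp, e4, e2, e3]
      have : t * (n + 1 + 1) = t * (n + 1) + t := by ring
      omega
    rcases min_le_iff.1 (h2.trans h1) with h5 | h5
    · omega
    · exact h5

theorem min_int (h4 : RowH4) (hNP : RowNP) {c y : FreeGroup α} (hc : c ≠ 1)
    (hy : ∀ m : ℤ, y.norm ≤ (c ^ m * y).norm) (i : ℤ) : gp (c ^ i) y ≤ c.norm := by
  obtain ⟨n, rfl | rfl⟩ := Int.eq_nat_or_neg i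
  · rw [zpow_natCast]
    exact min_nat h4 hNP hc (by simpa using hy (-1)) n
  · rw [zpow_neg, zpow_natCast, ← inv_pow, ← norm_inv_eq (x := c)]
    exact min_nat h4 hNP (inv_ne_one.2 hc) (by simpa using hy 1) n

theorem near_pos (h4 : RowH4) (hNP : RowNP) {c : FreeGroup α} (hc : c ≠ 1) (g : FreeGroup α) :
    Near c c.norm g (pos c g) := by
  refine min_int h4 hNP hc fun m => ?_
  have h := pos_spec c g (pos c g - m)
  have e : c ^ (-(pos c g - m)) * g = c ^ m * (c ^ (-pos c g) * g) := by group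
  rwa [e] at h

theorem close (h4 : RowH4) (hNP : RowNP) {c g : FreeGroup α} (hc : c ≠ 1) {K j : ℤ}
    (h : Near c K g j) : |pos c g - j| ≤ K + c.norm := by
  have h0 : 0 ≤ K := by simpa [gp_one] using h 0
  have h1 := h (pos c g - j)
  have h2 := near_pos h4 hNP hc g (-(pos c g - j))
  have h3 := abs_le_norm hNP hc (pos c g - j)
  have e1 : (c ^ (pos c g - j))⁻¹ * (c ^ (-j) * g) = c ^ (-pos c g) * g := by group
  have e2 : (c ^ (-(pos c g - j)))⁻¹ * (c ^ (-pos c g) * g) = c ^ (-j) * g := by group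
  have e3 : (c ^ (-(pos c g - j))).norm = (c ^ (pos c g - j)).norm := by
    rw [zpow_neg, norm_inv_eq]
  rw [gp, e1] at h1
  rw [gp, e2, e3] at h2
  omega

theorem walk (H : Set (FreeGroup α)) (L : List (α × Bool)) : ∀ u : FreeGroup α, u ∉ H →
    u * mk L ∈ H → ∃ (p : FreeGroup α) (a : α) (s : ℤ), (s = 1 ∨ s = -1) ∧ u * p ∉ H ∧
      u * p * of a ^ s ∈ H ∧ p.norm + (p⁻¹ * mk L).norm ≤ L.length := by
  induction L with
  | nil => exact fun u h1 h2 => (h1 (by simpa [← one_eq_mk] using h2)).elim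
  | cons x L ih =>
    intro u h1 h2
    obtain ⟨s, hs, e, hn⟩ : ∃ s : ℤ, (s = 1 ∨ s = -1) ∧ mk (x :: L) = of x.1 ^ s * mk L ∧
        (of x.1 ^ s).norm = 1 := by
      obtain ⟨a, _ | _⟩ := x
      · refine ⟨-1, Or.inr rfl, ?_, by simp⟩
        rw [zpow_neg_one, of, inv_mk, mul_mk]
        rfl
      · refine ⟨1, Or.inl rfl, ?_, by simp⟩
        rw [zpow_one, of, mul_mk]
        rfl
    by_cases h3 : u * of x.1 ^ s ∈ H
    · refine ⟨1, x.1, s, hs, by simpa using h1, by simpa using h3, ?_⟩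
      simpa using norm_mk_le (L₁ := x :: L)
    · obtain ⟨p, a, s', hs', k1, k2, k3⟩ := ih _ h3 (by rwa [e, ← mul_assoc] at h2)
      refine ⟨of x.1 ^ s * p, a, s', hs', by rwa [← mul_assoc], by rwa [← mul_assoc u], ?_⟩
      have e1 : (of x.1 ^ s * p)⁻¹ * mk (x :: L) = p⁻¹ * mk L := by
        rw [e]
        group
      have := norm_mul_le (of x.1 ^ s) p
      rw [e1, List.length_cons]
      omega

theorem dcoset [Finite α] (h4 : RowH4) (hNP : RowNP) (hOV : RowOV) {c c₀ : FreeGroup α}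
    (hc : c ≠ 1) (hc₀ : c₀ ≠ 1) : ∃ K : ℤ, ∀ x : FreeGroup α, ¬ Commute c (x * c₀ * x⁻¹) →
      ∃ j : ℤ, ∀ k : ℤ, Near c K (x * c₀ ^ k) j := by
  have hfin : {y : FreeGroup α | y.norm ≤ c.norm + c₀.norm}.Finite :=
    (List.finite_length_le (α × Bool) _).preimage (f := toWord) toWord_injective.injOn
  have hex : ∀ y : FreeGroup α, ∃ K : ℤ, ¬ Commute c (y * c₀ * y⁻¹) →
      ∀ k i : ℤ, gp (c ^ k) ((y * c₀ * y⁻¹) ^ i) ≤ K := fun y => by
    by_cases h : Commute c (y * c₀ * y⁻¹)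
    · exact ⟨0, fun h' => (h' h).elim⟩
    · obtain ⟨K, hK⟩ := hOV α c _ h
      exact ⟨K, fun _ => hK⟩
  choose Ky hKy using hex
  obtain ⟨B, hB⟩ := (hfin.image Ky).bddAbove
  refine ⟨max (c.norm : ℤ) (B + 2 * (c.norm + c₀.norm)), fun x hx => ?_⟩
  obtain ⟨⟨a, b⟩, hab⟩ : ∃ q : ℤ × ℤ, ∀ r : ℤ × ℤ,
      (c ^ (-q.1) * x * c₀ ^ q.2).norm ≤ (c ^ (-r.1) * x * c₀ ^ r.2).norm :=
    ⟨Function.argmin fun q : ℤ × ℤ => (c ^ (-q.1) * x * c₀ ^ q.2).norm,
      fun r => Function.argmin_le (fun q : ℤ × ℤ => (c ^ (-q.1) * x * c₀ ^ q.2).norm) r⟩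
  obtain ⟨y, hy⟩ : ∃ y, y = c ^ (-a) * x * c₀ ^ b := ⟨_, rfl⟩
  simp only [← hy] at hab
  have g1 : ∀ i : ℤ, gp (c ^ i) y ≤ c.norm := min_int h4 hNP hc fun m => by
    have h := hab (a - m, b)
    have e : c ^ (-(a - m)) * x * c₀ ^ b = c ^ m * y := by
      rw [hy]
      group
    rwa [e] at h
  have g2 : ∀ i : ℤ, gp (c₀ ^ i) y⁻¹ ≤ c₀.norm := min_int h4 hNP hc₀ fun m => by
    have h := hab (a, b - m)
    have e : c ^ (-a) * x * c₀ ^ (b - m) = (c₀ ^ m * y⁻¹)⁻¹ := by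
      rw [hy]
      group
    rwa [e, norm_inv_eq, ← norm_inv_eq (x := y)] at h
  have hy' : ¬ Commute c (y * c₀ * y⁻¹) := fun h => hx <| by
    have e : x * c₀ * x⁻¹ = c ^ a * (y * c₀ * y⁻¹) * (c ^ a)⁻¹ := by
      rw [hy]
      group
    rw [e]
    exact (((Commute.refl c).zpow_right a).mul_right h).mul_right
      ((Commute.refl c).zpow_right a).inv_right
  refine ⟨a, fun k i => ?_⟩
  have e : c ^ (-a) * (x * c₀ ^ k) = y * c₀ ^ (k - b) := by
    rw [hy]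
    group
  rw [e]
  by_cases hb : y.norm ≤ c.norm + c₀.norm
  · refine le_max_of_le_right ?_
    have h1 := hKy y hy' i (k - b)
    have h2 : Ky y ≤ B := hB ⟨y, hb, rfl⟩
    have h3 := gp_mul_le (c ^ i) ((y * c₀ * y⁻¹) ^ (k - b)) y
    have e1 : (y * c₀ * y⁻¹) ^ (k - b) * y = y * c₀ ^ (k - b) := by
      rw [conj_zpow]
      group
    rw [e1] at h3
    omega
  · refine le_max_of_le_left ?_
    have h1 := (h4 α (c ^ i) (y * c₀ ^ (k - b)) y).trans (g1 i)
    have h2 := g2 (k - b)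
    have e1 : ((c₀ ^ (k - b))⁻¹ * y⁻¹).norm = (y * c₀ ^ (k - b)).norm := by
      rw [← mul_inv_rev, norm_inv_eq]
    have e2 : ((y * c₀ ^ (k - b))⁻¹ * y).norm = (c₀ ^ (k - b)).norm := by
      rw [mul_inv_rev, inv_mul_cancel_right, norm_inv_eq]
    rw [gp, e1, norm_inv_eq] at h2
    rcases min_le_iff.1 h1 with h5 | h5
    · exact h5
    · rw [gp, e2] at h5
      omega

end PCAux

open PCAux in
theorem pc : RowPCOf := by
  intro h4 hNP hBCL hOV α _ _
  refine ⟨fun c hc => ⟨c.norm + c.norm, fun g k => ?_⟩, fun β c hc => ?_, fun c c₀ hc => ?_,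
    fun c h hc => ⟨c.norm + 2 * h.norm + c.norm, fun x => ?_⟩,
    fun c hc => ⟨c.norm + c.norm, fun H g hH hg => ?_⟩⟩
  · rw [sub_sub]
    refine close h4 hNP hc fun i => ?_
    have e : c ^ (-(pos c g + k)) * (c ^ k * g) = c ^ (-pos c g) * g := by group
    rw [e]
    exact near_pos h4 hNP hc g i
  · obtain ⟨K, hK⟩ := hBCL α β c.norm
    refine ⟨K + (β c).norm, fun g => close h4 hNP (by simpa using hc) fun i => ?_⟩
    have h := hK _ _ (near_pos h4 hNP hc g i)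
    rwa [_root_.map_mul, map_zpow, map_zpow] at h
  · by_cases hc₀ : c₀ = 1
    · exact ⟨0, fun x i h => (h (by simp [hc₀])).elim⟩
    obtain ⟨K, hK⟩ := dcoset h4 hNP hOV hc hc₀
    refine ⟨2 * (K + c.norm), fun x i h => ?_⟩
    obtain ⟨j, hj⟩ := hK x h
    have h1 := abs_le.1 (close h4 hNP hc (hj i))
    have h2 := abs_le.1 (close h4 hNP hc (hj 0))
    rw [zpow_zero, mul_one] at h2
    rw [abs_le]
    omega
  · refine close h4 hNP hc fun i => ?_
    have h1 := near_pos h4 hNP hc x i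
    have h2 := gp_mul_le (c ^ i) (c ^ (-pos c x) * x) h
    rw [← mul_assoc]
    omega
  · have e : c ^ pos c g * mk (c ^ (-pos c g) * g).toWord = g := by
      rw [mk_toWord]
      group
    obtain ⟨p, a, s, hs, k1, k2, k3⟩ := walk H _ _ (hH (pos c g)) (e.symm ▸ hg)
    refine ⟨_, a, s, hs, k1, k2, close h4 hNP hc fun i => ?_⟩
    have h1 := near_pos h4 hNP hc g i
    have e1 : c ^ (-pos c g) * (c ^ pos c g * p) = p := by group
    have h2 := norm_mul_le ((c ^ i)⁻¹ * p) (p⁻¹ * (c ^ (-pos c g) * g))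
    have e2 : (c ^ i)⁻¹ * p * (p⁻¹ * (c ^ (-pos c g) * g)) = (c ^ i)⁻¹ * (c ^ (-pos c g) * g) := by
      group
    rw [mk_toWord] at k3
    change _ ≤ (c ^ (-pos c g) * g).norm at k3
    rw [e2] at h2
    rw [e1]
    simp only [gp] at h1 ⊢
    omega

end Pool.Agent.MP_3ce0a0_al.Q2T9
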