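import Pool.Agent.MP_3ce0a0_al.Q2T9.Spec
import Pool.Agent.MP_3ce0a0_al.Q2T1.Basic

/-! Row Side: `pos c` is almost constant beyond an edge. -/

set_option autoImplicit false

namespace Pool.Agent.MP_3ce0a0_al.Q2T9

open Pool.Agent.MP_3ce0a0_al.Q2T1
open Subgroup

namespace SideAux

section Tree

variable {X : Type} [MetricSpace X] [IsSimp X]

theorem seg_finite (x y : X) : (seg x y).Finite := by
  refine Set.Finite.of_finite_image (f := fun z => ⌊dist x z⌋₊)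
    ((Set.finite_Iic ⌊dist x y⌋₊).subset ?_) fun z hz w hw h => ?_
  · rintro _ ⟨z, hz, rfl⟩
    exact Nat.floor_le_floor (Btw.dist_le_left hz)
  · obtain ⟨n, hn⟩ := IsSimp.int x z
    obtain ⟨m, hm⟩ := IsSimp.int x w
    simp only [hn, hm, Nat.floor_natCast] at h
    exact Btw.eq_of_dist hz hw (by rw [hn, hm, h])

theorem edge_or {v y : X} (h : dist v y = 1) (z : X) : Btw v y z ∨ Btw y v z := by
  have h1 := med_btw12 v y z
  obtain ⟨n, hn⟩ := IsSimp.int v (med v y z)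
  have h2 := h1.dist_le_left
  rw [hn, h] at h2
  have h3 : n ≤ 1 := by exact_mod_cast h2
  rcases Nat.le_one_iff_eq_zero_or_eq_one.1 h3 with rfl | rfl
  · rw [Nat.cast_zero, dist_eq_zero] at hn
    exact Or.inr (med_eq_left_iff.1 hn.symm)
  · refine Or.inl (med_eq_mid_iff.1 (h1.eq_of_dist (btw_right _ _) ?_))
    rw [hn, h, Nat.cast_one]

theorem cross {v y z w : X} (h : dist v y = 1) (hz : ¬ Btw v y z) (hw : Btw v y w) :
    Btw z v w ∧ Btw z y w := by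
  have h1 : Btw z y w := (hw.or z).resolve_left hz
  exact ⟨((edge_or h z).resolve_left hz).symm.trans_left h1, h1⟩

end Tree

section Grp

variable {G X : Type} [Group G] [MetricSpace X] [MulAction G X] [IsIsometricSMul G X]

theorem not_comm {c d x : G} {p q : X} (hc : RF c) (hn : ¬ EdgeGen X c) (hd : RF d)
    (hpq : dist p q = 1) (hs : ∀ g : G, (g • p = p ∧ g • q = q) ↔ g ∈ zpowers d) :
    ¬ Commute c (x * d * x⁻¹) := by
  intro h
  have h1 : x⁻¹ * c * x ∈ zpowers d := hd.2 _ (by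
    have := h.conj x⁻¹
    simpa [mul_assoc] using this)
  have key : ∀ (g : G) (z : X), g • x • z = x • z ↔ (x⁻¹ * g * x) • z = z := fun g z => by
    rw [mul_smul, mul_smul, inv_smul_eq_iff]
  refine hn ⟨x • p, x • q, by rw [dist_smul, hpq], fun g => ?_⟩
  rw [key, key, hs]
  constructor
  · rintro ⟨i, hi⟩
    have e : g = (x * d * x⁻¹) ^ i := by
      rw [conj_zpow, show d ^ i = x⁻¹ * g * x from hi]
      group
    rw [e]
    exact zpow_mem (hc.2 _ h.symm) i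
  · rintro ⟨i, rfl⟩
    have e : x⁻¹ * c ^ i * x = (x⁻¹ * c * x) ^ i := by
      simpa using (conj_zpow (i := i) (a := x⁻¹) (b := c)).symm
    exact e ▸ zpow_mem h1 i

end Grp

variable {α : Type} [DecidableEq α] {X : Type} [MetricSpace X] [MulAction (FreeGroup α) X]
  [IsIsometricSMul (FreeGroup α) X]

theorem pair (P : PC α) (he : ∀ x y : X, dist x y = 1 → ∃ d : FreeGroup α, RF d ∧
      ∀ g : FreeGroup α, (g • x = x ∧ g • y = y) ↔ g ∈ zpowers d)
    {c : FreeGroup α} (hc : RF c) (hn : ¬ EdgeGen X c) (e e' : X × X) :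
    ∃ K : ℤ, ∀ x x' : FreeGroup α, dist e.1 e.2 = 1 → x • e.1 = x' • e'.1 → x • e.2 = x' • e'.2 →
      |pos c x - pos c x'| ≤ K := by
  by_cases h1 : dist e.1 e.2 = 1
  swap
  · exact ⟨0, fun _ _ h => absurd h h1⟩
  by_cases h2 : ∃ h : FreeGroup α, h • e'.1 = e.1 ∧ h • e'.2 = e.2
  swap
  · exact ⟨0, fun x x' _ a b => absurd ⟨x⁻¹ * x', by rw [mul_smul, ← a, inv_smul_smul],
      by rw [mul_smul, ← b, inv_smul_smul]⟩ h2⟩
  obtain ⟨h, ha, hb⟩ := h2
  obtain ⟨d, hd, hs⟩ := he _ _ h1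
  obtain ⟨K3, h3⟩ := P.p3 c d hc.1
  obtain ⟨K4, h4⟩ := P.p4 c h hc.1
  refine ⟨K3 + K4, fun x x' _ a b => ?_⟩
  obtain ⟨i, hi⟩ := (hs (x⁻¹ * x' * h⁻¹)).1
    ⟨by rw [mul_smul, mul_smul, inv_smul_eq_iff.2 ha.symm, ← a, inv_smul_smul],
      by rw [mul_smul, mul_smul, inv_smul_eq_iff.2 hb.symm, ← b, inv_smul_smul]⟩
  have e1 : x' = x * d ^ i * h := by
    rw [show d ^ i = x⁻¹ * x' * h⁻¹ from hi]
    group
  have k3 := abs_le.1 (h3 x i (not_comm hc hn hd h1 hs))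
  have k4 := abs_le.1 (h4 (x * d ^ i))
  rw [e1, abs_le]
  constructor <;> linarith [k3.1, k3.2, k4.1, k4.2]

end SideAux

open SideAux in
theorem side : RowSideOf := by
  intro hP α _ _ X _ _ _ _ he c v hc hv hn
  have P := hP α
  let S : Set X := ⋃ a : α × Bool, seg v (FreeGroup.of a.1 ^ (if a.2 then (1 : ℤ) else -1) • v)
  have hS : S.Finite := Set.finite_iUnion fun a => seg_finite _ _
  choose K hK using pair P he hc hn
  obtain ⟨K0, hK0⟩ := (((hS.prod hS).prod (hS.prod hS)).image fun e => K e.1 e.2).bddAbove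
  obtain ⟨K5, h5⟩ := P.p5 c hc.1
  have key : ∀ (y : X) (g : FreeGroup α), dist v y = 1 → Btw v y (g • v) →
      ∃ x : FreeGroup α, x⁻¹ • v ∈ S ∧ x⁻¹ • y ∈ S ∧ |pos c x - pos c g| ≤ K5 := by
    intro y g hy hg
    obtain ⟨x, a, s, hs, h1, h2, h3⟩ := h5 {g | Btw v y (g • v)} g (fun i hi => by
      have e : c ^ i • v = v := zpow_mem (K := MulAction.stabilizer (FreeGroup α) v) hv i
      have h0 : Btw v y (c ^ i • v) := hi
      rw [e] at h0
      rw [h0.eq_of_self, dist_self] at hy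
      exact zero_ne_one hy) hg
    obtain ⟨k1, k2⟩ := cross hy h1 h2
    have m : ∀ z, Btw (x • v) z ((x * FreeGroup.of a ^ s) • v) → x⁻¹ • z ∈ S := fun z hz => by
      have := BAct.btw x⁻¹ _ _ _ hz
      rw [mul_smul, inv_smul_smul, inv_smul_smul] at this
      rcases hs with rfl | rfl
      · exact Set.mem_iUnion.2 ⟨(a, true), this⟩
      · exact Set.mem_iUnion.2 ⟨(a, false), this⟩
    exact ⟨x, m _ k1, m _ k2, h3⟩
  refine ⟨K5 + K0 + K5, fun y g g' hy hg hg' => ?_⟩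
  obtain ⟨x, a1, a2, a3⟩ := key y g hy hg
  obtain ⟨x', b1, b2, b3⟩ := key y g' hy hg'
  have h1 := hK (x⁻¹ • v, x⁻¹ • y) (x'⁻¹ • v, x'⁻¹ • y) x x' (by rw [dist_smul, hy])
    (by rw [smul_inv_smul, smul_inv_smul]) (by rw [smul_inv_smul, smul_inv_smul])
  have h2 : K (x⁻¹ • v, x⁻¹ • y) (x'⁻¹ • v, x'⁻¹ • y) ≤ K0 :=
    hK0 ⟨((x⁻¹ • v, x⁻¹ • y), (x'⁻¹ • v, x'⁻¹ • y)), ⟨⟨a1, a2⟩, b1, b2⟩, rfl⟩
  rw [abs_le] at h1 a3 b3 ⊢
  constructor <;> linarith [h1.1, h1.2, a3.1, a3.2, b3.1, b3.2]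

end Pool.Agent.MP_3ce0a0_al.Q2T9
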