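import Pool.Agent.MP_3ce0a0_al.Q2T9.Spec

/-! Only edge groups have positive twisting number. -/

set_option autoImplicit false

namespace Pool.Agent.MP_3ce0a0_al.Q2T9

open Pool.Agent.MP_3ce0a0_al.H79 Pool.Agent.MP_3ce0a0_al.Q2T1 Pool.Agent.MP_3ce0a0_al.Q2T15
open Subgroup

theorem w2 : RowW2Of := by
  intro hS hD α _ _ φ X _ _ _ _ N al h c hw
  by_contra hn
  have hc : RF c ∧ Per c φ := by
    by_contra h0
    rw [wt, if_neg h0] at hw
    exact lt_irrefl _ hw
  rw [wt, if_pos hc] at hw
  obtain ⟨v, hv⟩ := h.ell c hc.2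
  obtain ⟨K, hK⟩ := hS α X h.edge c v hc.1 hv hn
  obtain ⟨σ, h1, h2, h3, h4⟩ := h.act v
  have key : ∀ (q : ℕ) (g : FreeGroup α), |pos c ((al v ^ q) g) - pos c g| ≤ max K 0 := by
    intro q g
    by_cases hg : g • v = v
    · have e : (al v ^ q) g = g := by
        induction q with
        | zero => rfl
        | succ q ih => rw [pow_succ', MulAut.mul_apply, ih, h.cent v g hg]
      rw [e, sub_self, abs_zero]
      exact le_max_right _ _
    · obtain ⟨y, hy, hb⟩ := IsSimp.geo v (g • v) (Ne.symm hg)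
      have e : Btw v y ((al v ^ q) g • v) := by
        induction q with
        | zero => exact hb
        | succ q ih =>
          have h5 := h1 _ _ _ ih
          rwa [h2, h3, h4 y hy, ← MulAut.mul_apply, ← pow_succ'] at h5
      exact (hK y _ _ hy e hb).trans (le_max_left _ _)
  have h0 : (0 : ℝ) ∈ Slopes c φ := by
    refine (hD α).crit c φ N (al v) 0 ((2 * max K 0 : ℤ) : ℝ) hc.1 h.pos (h.lift v)
      (h.cent v c hv) le_rfl fun q g g' _ _ => ?_
    rw [zero_mul, zero_add, Int.cast_le]
    have a := key q g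
    have b := key q g'
    rw [abs_le] at a b ⊢
    constructor <;> omega
  exact absurd (csInf_le ⟨0, fun r hr => hr.1⟩ h0) (not_le.2 hw)

end Pool.Agent.MP_3ce0a0_al.Q2T9
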