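import Pool.Agent.MP_3ce0a0_al.Q2T9.Spec

/-! Row WC of block T9: the twisting number is a conjugation invariant seminorm. -/

set_option autoImplicit false

namespace Pool.Agent.MP_3ce0a0_al.Q2T9

open Pool.Agent.MP_3ce0a0_al.H79 Pool.Agent.MP_3ce0a0_al.Q2T1 Pool.Agent.MP_3ce0a0_al.Q2T15
open Subgroup

namespace WCAux

section Gen

variable {G : Type} [Group G]

theorem fix_zpow {β : MulAut G} {c : G} (h : β c = c) (k : ℤ) : (β ^ k) c = c := by
  have h1 : β ∈ MulAction.stabilizer (MulAut G) c := h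
  exact (MulAction.stabilizer (MulAut G) c).zpow_mem h1 k

theorem fix_pow {β : MulAut G} {c : G} (h : β c = c) (k : ℕ) : (β ^ k) c = c := by
  have h1 : β ∈ MulAction.stabilizer (MulAut G) c := h
  exact (MulAction.stabilizer (MulAut G) c).pow_mem h1 k

theorem fix_inv {β : MulAut G} {c : G} (h : β c = c) : β⁻¹ c = c := by
  have h1 : β ∈ MulAction.stabilizer (MulAut G) c := h
  exact (MulAction.stabilizer (MulAut G) c).inv_mem h1

theorem rf_conj (ψ : MulAut G) {c : G} (h : RF c) : RF (ψ c) := by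
  refine ⟨fun e => h.1 ?_, fun g hg => ?_⟩
  · exact (MulEquiv.map_eq_one_iff ψ).1 e
  · have h1 : Commute (ψ.symm g) c := by
      have := hg.map ψ.symm
      simpa using this
    obtain ⟨k, hk⟩ := mem_zpowers_iff.1 (h.2 _ h1)
    refine mem_zpowers_iff.2 ⟨k, ?_⟩
    rw [← map_zpow, hk]
    simp

theorem per_conj (ψ : MulAut G) {c : G} {φ : Out G} (h : Per c φ) :
    Per (ψ c) (mkOut G ψ * φ * (mkOut G ψ)⁻¹) := by
  obtain ⟨N, hN, β, h1, h2⟩ := h
  refine ⟨N, hN, ψ * β * ψ⁻¹, ?_, ?_⟩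
  · rw [conj_pow, map_mul, map_mul, map_inv, h1]
  · simp [h2]

theorem per_zpow {c : G} {φ : Out G} (h : Per c φ) (k : ℤ) : Per c (φ ^ k) := by
  obtain ⟨N, hN, β, h1, h2⟩ := h
  refine ⟨N, hN, β ^ k, ?_, fix_zpow h2 k⟩
  rw [map_zpow, h1, ← zpow_natCast, ← zpow_natCast, ← zpow_mul, ← zpow_mul, mul_comm]

theorem conj_back (ψ : MulAut G) (φ : Out G) :
    mkOut G ψ⁻¹ * (mkOut G ψ * φ * (mkOut G ψ)⁻¹) * (mkOut G ψ⁻¹)⁻¹ = φ := by
  rw [map_inv]
  group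

end Gen

variable {α : Type} [DecidableEq α]

theorem dl_eq {c : FreeGroup α} {β : MulAut (FreeGroup α)} {K K' : ℝ} (h : DlLe c β K)
    (e : K = K') : DlLe c β K' := e ▸ h

theorem bdd (c : FreeGroup α) (φ : Out (FreeGroup α)) : BddBelow (Slopes c φ) :=
  ⟨0, fun _ hr => hr.1⟩

theorem wt_pos {c : FreeGroup α} {φ : Out (FreeGroup α)} (h1 : RF c) (h2 : Per c φ) :
    wt c φ = sInf (Slopes c φ) := by
  unfold wt
  rw [if_pos ⟨h1, h2⟩]

theorem wt_neg {c : FreeGroup α} {φ : Out (FreeGroup α)} (h : ¬ (RF c ∧ Per c φ)) :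
    wt c φ = 0 := by
  unfold wt
  rw [if_neg h]

theorem nonneg (c : FreeGroup α) (φ : Out (FreeGroup α)) : 0 ≤ wt c φ := by
  by_cases h : RF c ∧ Per c φ
  · rw [wt_pos h.1 h.2]
    exact Real.sInf_nonneg fun _ hr => hr.1
  · rw [wt_neg h]

theorem slopes_conj (D : DC α) (ψ : MulAut (FreeGroup α)) {c : FreeGroup α} (hc : c ≠ 1)
    (φ : Out (FreeGroup α)) :
    Slopes c φ ⊆ Slopes (ψ c) (mkOut _ ψ * φ * (mkOut _ ψ)⁻¹) := by
  rintro r ⟨hr, K, hK⟩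
  obtain ⟨K₀, h0⟩ := D.conj c ψ hc
  refine ⟨hr, K + K₀, fun j β h1 h2 => ?_⟩
  have e1 : mkOut _ (ψ⁻¹ * β * ψ) = φ ^ j := by
    rw [map_mul, map_mul, map_inv, h1, conj_pow]
    group
  have e2 : (ψ⁻¹ * β * ψ) c = c := by simp [h2]
  have h3 := h0 _ _ (hK j _ e1 e2)
  have e3 : ψ * (ψ⁻¹ * β * ψ) * ψ⁻¹ = β := by group
  rw [e3] at h3
  exact dl_eq h3 (by ring)

theorem conj (D : DC α) (ψ : MulAut (FreeGroup α)) (c : FreeGroup α) (φ : Out (FreeGroup α)) :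
    wt (ψ c) (mkOut _ ψ * φ * (mkOut _ ψ)⁻¹) = wt c φ := by
  have eb : ψ⁻¹ (ψ c) = c := by simp
  by_cases h : RF c ∧ Per c φ
  · rw [wt_pos h.1 h.2, wt_pos (rf_conj ψ h.1) (per_conj ψ h.2)]
    congr 1
    refine Set.Subset.antisymm ?_ (slopes_conj D ψ h.1.1 φ)
    have := slopes_conj D ψ⁻¹ (rf_conj ψ h.1).1 (mkOut _ ψ * φ * (mkOut _ ψ)⁻¹)
    rwa [eb, conj_back] at this
  · rw [wt_neg h, wt_neg]
    rintro ⟨h1, h2⟩
    have a1 := rf_conj ψ⁻¹ h1
    have a2 := per_conj ψ⁻¹ h2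
    rw [eb] at a1
    rw [eb, conj_back] at a2
    exact h ⟨a1, a2⟩

theorem common {c : FreeGroup α} {φ φ' : Out (FreeGroup α)} (h : Per c φ) (h' : Per c φ') :
    ∃ N : ℕ, 0 < N ∧ ∃ b b' : MulAut (FreeGroup α), mkOut _ b = φ ^ N ∧ b c = c ∧
      mkOut _ b' = φ' ^ N ∧ b' c = c := by
  obtain ⟨N, hN, β, h1, h2⟩ := h
  obtain ⟨N', hN', β', h1', h2'⟩ := h'
  refine ⟨N * N', Nat.mul_pos hN hN', β ^ N', β' ^ N, ?_, fix_pow h2 _, ?_, fix_pow h2' _⟩
  · rw [map_pow, h1, pow_mul]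
  · rw [map_pow, h1', mul_comm, pow_mul]

theorem add (D : DC α) (c : FreeGroup α) (φ φ' : Out (FreeGroup α)) (h : Per c φ)
    (h' : Per c φ') (hc : Commute φ φ') : wt c (φ * φ') ≤ wt c φ + wt c φ' := by
  by_cases hr : RF c
  swap
  · rw [wt_neg fun x => hr x.1, wt_neg fun x => hr x.1, wt_neg fun x => hr x.1]
    simp
  obtain ⟨N, hN, b, b', e1, f1, e2, f2⟩ := common h h'
  have em : mkOut _ (b * b') = (φ * φ') ^ N := by rw [map_mul, e1, e2, hc.mul_pow]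
  have fm : (b * b') c = c := by simp [f1, f2]
  have hp : Per c (φ * φ') := ⟨N, hN, b * b', em, fm⟩
  rw [wt_pos hr h, wt_pos hr h', wt_pos hr hp]
  have key : ∀ r ∈ Slopes c φ, ∀ r' ∈ Slopes c φ', r + r' ∈ Slopes c (φ * φ') := by
    rintro r ⟨hr0, K, hK⟩ r' ⟨hr0', K', hK'⟩
    obtain ⟨K₀, h0⟩ := D.same c hr
    refine D.crit c _ N (b * b') (r + r') (K + K' + K₀) hr hN em fm (add_nonneg hr0 hr0')
      fun q => ?_
    have a1 : mkOut _ (b ^ q) = φ ^ (N * q) := by rw [map_pow, e1, pow_mul]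
    have a2 : mkOut _ (b' ^ q) = φ' ^ (N * q) := by rw [map_pow, e2, pow_mul]
    have a3 := D.mul c _ _ _ _ (fix_pow f2 q) (hK _ _ a1 (fix_pow f1 q))
      (hK' _ _ a2 (fix_pow f2 q))
    have a4 : (b ^ q * b' ^ q) c = c := by
      rw [MulAut.mul_apply, fix_pow f2 q, fix_pow f1 q]
    have a5 : mkOut _ (b ^ q * b' ^ q) = mkOut _ ((b * b') ^ q) := by
      rw [map_mul, a1, a2, map_pow, em, ← pow_mul, hc.mul_pow]
    have a6 := h0 _ _ _ a4 (fix_pow fm q) a5 a3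
    exact dl_eq a6 (by push_cast; ring)
  have n1 := D.ne c φ hr h
  have n2 := D.ne c φ' hr h'
  have s1 : ∀ r' ∈ Slopes c φ', sInf (Slopes c (φ * φ')) - r' ≤ sInf (Slopes c φ) := by
    intro r' hr'
    refine le_csInf n1 fun r hr1 => ?_
    have := csInf_le (bdd c (φ * φ')) (key r hr1 r' hr')
    linarith
  have s2 : sInf (Slopes c (φ * φ')) - sInf (Slopes c φ) ≤ sInf (Slopes c φ') := by
    refine le_csInf n2 fun r' hr' => ?_
    have := s1 r' hr'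
    linarith
  linarith

theorem slopes_inv (D : DC α) (c : FreeGroup α) (φ : Out (FreeGroup α)) :
    Slopes c φ ⊆ Slopes c φ⁻¹ := by
  rintro r ⟨hr, K, hK⟩
  refine ⟨hr, K, fun j β h1 h2 => ?_⟩
  have e1 : mkOut _ β⁻¹ = φ ^ j := by rw [map_inv, h1, inv_pow, inv_inv]
  have h3 := D.inv c _ _ (fix_inv h2) (hK j _ e1 (fix_inv h2))
  rwa [inv_inv] at h3

theorem wt_inv (D : DC α) {c : FreeGroup α} {φ : Out (FreeGroup α)} (hr : RF c) (h : Per c φ) :
    wt c φ⁻¹ = wt c φ := by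
  have h' : Per c φ⁻¹ := by
    have := per_zpow h (-1)
    rwa [zpow_neg_one] at this
  rw [wt_pos hr h, wt_pos hr h']
  congr 1
  refine Set.Subset.antisymm ?_ (slopes_inv D c φ)
  have := slopes_inv D c φ⁻¹
  rwa [inv_inv] at this

theorem wt_pow (D : DC α) {c : FreeGroup α} {φ : Out (FreeGroup α)} (hr : RF c) (h : Per c φ)
    (n : ℕ) : wt c (φ ^ n) = n * wt c φ := by
  have h' : Per c (φ ^ n) := by
    have := per_zpow h n
    rwa [zpow_natCast] at this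
  rcases Nat.eq_zero_or_pos n with rfl | hn
  · have z : (0 : ℝ) ∈ Slopes c (φ ^ 0) := by
      refine D.crit c _ 1 1 0 0 hr one_pos (by simp) rfl le_rfl fun q => ?_
      intro g g' _ _
      simp
    have a1 := nonneg c (φ ^ 0)
    rw [wt_pos hr h'] at a1 ⊢
    have a2 := csInf_le (bdd c (φ ^ 0)) z
    simp only [Nat.cast_zero, zero_mul]
    exact le_antisymm a2 a1
  have hn' : (0 : ℝ) < n := Nat.cast_pos.2 hn
  have n1 := D.ne c φ hr h
  have n2 := D.ne c _ hr h'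
  rw [wt_pos hr h, wt_pos hr h']
  have k1 : ∀ r ∈ Slopes c φ, n * r ∈ Slopes c (φ ^ n) := by
    rintro r ⟨hr0, K, hK⟩
    refine ⟨mul_nonneg hn'.le hr0, K, fun j β h1 h2 => ?_⟩
    have a1 := hK (n * j) β (by rw [h1, pow_mul]) h2
    exact dl_eq a1 (by push_cast; ring)
  have k2 : ∀ r ∈ Slopes c (φ ^ n), r / n ∈ Slopes c φ := by
    rintro r ⟨hr0, K, hK⟩
    obtain ⟨N, hN, β, h1, h2⟩ := h'
    refine D.crit c φ (n * N) β (r / n) K hr (Nat.mul_pos hn hN) (by rw [h1, pow_mul]) h2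
      (div_nonneg hr0 hn'.le) fun q => ?_
    have a1 := hK (N * q) (β ^ q) (by rw [map_pow, h1, ← pow_mul]) (fix_pow h2 q)
    refine dl_eq a1 ?_
    push_cast
    field_simp
  refine le_antisymm ?_ ?_
  · rw [mul_comm, ← div_le_iff₀ hn']
    refine le_csInf n1 fun r hr1 => ?_
    rw [div_le_iff₀ hn', mul_comm]
    exact csInf_le (bdd c _) (k1 r hr1)
  · refine le_csInf n2 fun r hr1 => ?_
    rw [mul_comm, ← le_div_iff₀ hn']
    exact csInf_le (bdd c _) (k2 r hr1)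

theorem zpow (D : DC α) (c : FreeGroup α) (φ : Out (FreeGroup α)) (k : ℤ) (h : Per c φ) :
    wt c (φ ^ k) = |(k : ℝ)| * wt c φ := by
  by_cases hr : RF c
  swap
  · rw [wt_neg fun x => hr x.1, wt_neg fun x => hr x.1]
    simp
  obtain ⟨n, rfl | rfl⟩ := Int.eq_nat_or_neg k
  · rw [zpow_natCast, wt_pow D hr h]
    simp
  · have h' : Per c (φ ^ n) := by
      have := per_zpow h n
      rwa [zpow_natCast] at this
    rw [zpow_neg, zpow_natCast, wt_inv D hr h', wt_pow D hr h]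
    simp

end WCAux

theorem wc : RowWCOf := fun hD α _ _ =>
  ⟨WCAux.nonneg, WCAux.conj (hD α), WCAux.add (hD α), WCAux.zpow (hD α)⟩

end Pool.Agent.MP_3ce0a0_al.Q2T9
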