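import Pool.Agent.MP_3ce0a0_al.Q2T9.Asm
import Pool.Agent.MP_3ce0a0_al.Q2T9.Adapt
import Pool.Agent.MP_3ce0a0_al.Q2T9.RH4
import Pool.Agent.MP_3ce0a0_al.Q2T9.RNP
import Pool.Agent.MP_3ce0a0_al.Q2T9.RMal
import Pool.Agent.MP_3ce0a0_al.Q2T9.RBCL
import Pool.Agent.MP_3ce0a0_al.Q2T9.ROV
import Pool.Agent.MP_3ce0a0_al.Q2T9.RPC
import Pool.Agent.MP_3ce0a0_al.Q2T9.RDC
import Pool.Agent.MP_3ce0a0_al.Q2T9.RWC
import Pool.Agent.MP_3ce0a0_al.Q2T9.RW1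
import Pool.Agent.MP_3ce0a0_al.Q2T9.RW2
import Pool.Agent.MP_3ce0a0_al.Q2T9.RSide
import Pool.Agent.MP_3ce0a0_al.Q2T9.RL

/-! Block T9: Proposition D gives the input of section 4. -/

set_option autoImplicit false

namespace Pool.Agent.MP_3ce0a0_al.Q2T9

theorem rowPC : RowPC := pc h4 np (bcl h4) (ov h4 np)

theorem rowDC : RowDC := dc mal rowPC

theorem rowWC : RowWC := wc rowDC

theorem rowW1 : RowW1 := w1 mal rowPC rowDC

theorem rowW2 : RowW2 := w2 (side rowPC) rowDC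

theorem sdl_out (hD : PropDOut) : SDL := sdl_of rowWC rowW1 rowW2 rowL hD

theorem sdl (hD : Q2T7.PropD) : SDL := sdl_out (propDOut_of hD)

end Pool.Agent.MP_3ce0a0_al.Q2T9
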