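import Pool.Agent.MP_3ce0a0_al.Q2T9.Spec

/-! The input and the output of block T9. -/

set_option autoImplicit false

namespace Pool.Agent.MP_3ce0a0_al.Q2T9

open Pool.Agent.MP_3ce0a0_al.H79 Pool.Agent.MP_3ce0a0_al.Q2T1 Pool.Agent.MP_3ce0a0_al.Q2T15
open Subgroup

/-- `φ` has a Dehn twist tree whose edge generators have the property `P`. -/
def HasTree {G : Type} [Group G] (φ : Out G) (P : G → Prop) : Prop :=
  ∃ (X : Type) (_ : MetricSpace X) (_ : IsSimp X) (_ : MulAction G X) (_ : IsIsometricSMul G X)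
    (N : ℕ) (al : X → MulAut G), Nonempty X ∧ Dehn φ X N al ∧ NoInv X (⊤ : Subgroup G) ∧
    (∀ v : X, (MulAction.stabilizer G v).FG) ∧ ∀ c : G, EdgeGen X c → P c

/-- Proposition D for the centraliser of `φ` in `Out F`. -/
def PropDOut : Prop := ∀ (β : Type) [Finite β] [Nontrivial β] (φ : Out (FreeGroup β)),
  (∀ h : φ ∈ centralizer {φ}, Star (⟨φ, h⟩ : centralizer {φ})) → HasTree φ fun _ => True

/-- Propositions D and L for the twists: the edge generators of the tree of one twist are periodic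
under all twists. -/
def SDL : Prop := ∀ (α β : Type) [Finite β] [Nontrivial β]
  (ρ : Out (FreeGroup α) →* Out (FreeGroup β)) (L : Set α), L.Finite → 4 ≤ L.ncard →
  ∀ h : α × Bool, h.1 ∈ L → ∀ d ∈ std Lᶜ, HasTree (ρ (tau h d)) fun c =>
    ∀ h' : α × Bool, h'.1 ∈ L → ∀ d' ∈ std Lᶜ, Per c (ρ (tau h' d'))

end Pool.Agent.MP_3ce0a0_al.Q2T9
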