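import Pool.Agent.MP_3ce0a0_al.Q2T9.Out
import Pool.Agent.MP_3ce0a0_al.Q2T15.G
import Pool.Agent.MP_3ce0a0_al.Q2T15.G1

/-! Assembly of Proposition L from the rows. -/

set_option autoImplicit false

namespace Pool.Agent.MP_3ce0a0_al.Q2T9

open Pool.Agent.MP_3ce0a0_al.H79 Pool.Agent.MP_3ce0a0_al.Q2T1 Pool.Agent.MP_3ce0a0_al.Q2T15
open Subgroup

noncomputable section

namespace AsmAux

section Act

variable (G : Type) [Group G]

/-- Automorphisms act on conjugacy classes. -/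
def autPerm : MulAut G →* Equiv.Perm (ConjClasses G) where
  toFun β :=
    { toFun := ConjClasses.map β.toMonoidHom
      invFun := ConjClasses.map β⁻¹.toMonoidHom
      left_inv := fun c => by
        obtain ⟨c, rfl⟩ := ConjClasses.mk_surjective c
        exact congrArg ConjClasses.mk (β.symm_apply_apply c)
      right_inv := fun c => by
        obtain ⟨c, rfl⟩ := ConjClasses.mk_surjective c
        exact congrArg ConjClasses.mk (β.apply_symm_apply c) }
  map_one' := by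
    ext c
    obtain ⟨c, rfl⟩ := ConjClasses.mk_surjective c
    rfl
  map_mul' β γ := by
    ext c
    obtain ⟨c, rfl⟩ := ConjClasses.mk_surjective c
    rfl

/-- Outer automorphisms act on conjugacy classes. -/
def outPerm : Out G →* Equiv.Perm (ConjClasses G) :=
  QuotientGroup.lift (Inn G) (autPerm G) (by
    rintro _ ⟨g, rfl⟩
    rw [MonoidHom.mem_ker]
    ext c
    obtain ⟨c, rfl⟩ := ConjClasses.mk_surjective c
    exact (ConjClasses.mk_eq_mk_iff_isConj.2 (isConj_iff.2 ⟨g, rfl⟩)).symm)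

/-- The action as a structure. -/
@[reducible] def outAct : MulAction (Out G) (ConjClasses G) :=
  MulAction.compHom (ConjClasses G) (outPerm G)

variable {G}

theorem outPerm_mk (β : MulAut G) (c : G) :
    outPerm G (mkOut G β) (ConjClasses.mk c) = ConjClasses.mk (β c) := rfl

theorem per_iff (c : G) (φ : Out G) :
    (∃ N : ℕ, 0 < N ∧ outPerm G (φ ^ N) (ConjClasses.mk c) = ConjClasses.mk c) ↔ Per c φ := by
  constructor
  · rintro ⟨N, hN, h⟩
    obtain ⟨β, hβ⟩ := mkOut_surjective G (φ ^ N)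
    rw [← hβ, outPerm_mk, ConjClasses.mk_eq_mk_iff_isConj, isConj_iff] at h
    obtain ⟨g, hg⟩ := h
    exact ⟨N, hN, MulAut.conj g * β, by rw [map_mul, mkOut_conj, one_mul, hβ], hg⟩
  · rintro ⟨N, hN, β, hβ, h⟩
    exact ⟨N, hN, by rw [← hβ, outPerm_mk, h]⟩

theorem per_of_finite {C : Type} (σ : Equiv.Perm C) {S : Set C} (hS : S.Finite) {c : C}
    (h : ∀ n : ℕ, (σ ^ n) c ∈ S) : ∃ N : ℕ, 0 < N ∧ (σ ^ N) c = c := by
  obtain ⟨m, n, hmn, e⟩ := hS.exists_lt_map_eq_of_forall_mem h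
  refine ⟨n - m, Nat.sub_pos_of_lt hmn, (σ ^ m).injective ?_⟩
  rw [← Equiv.Perm.mul_apply, ← pow_add, Nat.add_sub_cancel' hmn.le, e]

theorem gens_finite [IsMulTorsionFree G] (H : Set G) :
    {c : G | ∀ g, g ∈ H ↔ g ∈ zpowers c}.Finite := by
  rcases Set.eq_empty_or_nonempty {c : G | ∀ g, g ∈ H ↔ g ∈ zpowers c} with h | ⟨d, hd⟩
  · rw [h]
    exact Set.finite_empty
  refine (Set.toFinite ({d, d⁻¹} : Set G)).subset fun c hc => ?_
  have e : zpowers c = zpowers d := by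
    ext g
    rw [← hc g, ← hd g]
  obtain ⟨i, hi⟩ : c ∈ zpowers d := e ▸ mem_zpowers c
  by_cases h1 : d = 1
  · left
    rw [← hi, h1]
    simp
  have h2 : ¬ IsOfFinOrder d := fun h => h1 ((isOfFinOrder_iff_eq_one d).1 h)
  rcases (zpowers_eq_zpowers_iff h2).1 e.symm with h | h
  · exact Or.inl h.symm
  · exact Or.inr h.symm

theorem edgeGen_finite [IsMulTorsionFree G] {φ : Out G} {X : Type} [MetricSpace X]
    [MulAction G X] {N : ℕ} {al : X → MulAut G} (hD : Dehn φ X N al) :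
    (ConjClasses.mk '' {c : G | EdgeGen X c}).Finite := by
  obtain ⟨E, hE, hcov⟩ := hD.cofin
  refine ((hE.biUnion fun e _ => gens_finite
    {g : G | g • e.1 = e.1 ∧ g • e.2 = e.2}).image ConjClasses.mk).subset ?_
  rintro _ ⟨c, ⟨x, y, hxy, hc⟩, rfl⟩
  obtain ⟨e, he, u, rfl, rfl⟩ := hcov x y hxy
  refine ⟨u⁻¹ * c * u, Set.mem_biUnion he fun g => ?_,
    ConjClasses.mk_eq_mk_iff_isConj.2 (isConj_iff.2 ⟨u, by group⟩)⟩
  have h1 : ∀ z : X, g • z = z ↔ (u * g * u⁻¹) • u • z = u • z := fun z => by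
    rw [mul_smul, inv_smul_smul, mul_smul, smul_left_cancel_iff]
  rw [Set.mem_ofPred_eq, h1, h1, hc]
  constructor
  · rintro ⟨k, hk⟩
    refine ⟨k, ?_⟩
    have : (u⁻¹ * c * u⁻¹⁻¹) ^ k = u⁻¹ * c ^ k * u⁻¹⁻¹ := conj_zpow
    simp only [inv_inv] at this hk ⊢
    rw [this, hk]
    group
  · rintro ⟨k, hk⟩
    refine ⟨k, ?_⟩
    have : (u⁻¹ * c * u⁻¹⁻¹) ^ k = u⁻¹ * c ^ k * u⁻¹⁻¹ := conj_zpow
    simp only [inv_inv] at this hk ⊢
    rw [← hk, this]
    group

end Act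

variable {β : Type} [DecidableEq β]

/-- The twisting number of a conjugacy class. -/
def wq (c : ConjClasses (FreeGroup β)) (φ : Out (FreeGroup β)) : ℝ := wt c.out φ

theorem wq_mk (hW : WC β) (c : FreeGroup β) (φ : Out (FreeGroup β)) :
    wq (ConjClasses.mk c) φ = wt c φ := by
  have h : ConjClasses.mk (ConjClasses.mk c).out = ConjClasses.mk c := Quotient.out_eq _
  obtain ⟨g, hg⟩ := isConj_iff.1 (ConjClasses.mk_eq_mk_iff_isConj.1 h)
  have := hW.conj (MulAut.conj g) (ConjClasses.mk c).out φ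
  rw [mkOut_conj, one_mul, inv_one, mul_one, MulAut.conj_apply, hg] at this
  exact this.symm

theorem wq_conj (hW : WC β) (ψ : Out (FreeGroup β)) (c : ConjClasses (FreeGroup β))
    (φ : Out (FreeGroup β)) : wq (outPerm _ ψ c) (ψ * φ * ψ⁻¹) = wq c φ := by
  obtain ⟨c, rfl⟩ := ConjClasses.mk_surjective c
  obtain ⟨ψ, rfl⟩ := mkOut_surjective _ ψ
  rw [outPerm_mk, wq_mk hW, wq_mk hW, hW.conj]

theorem supp_finite [Finite β] (hW : WC β) (h2 : RowW2) {φ : Out (FreeGroup β)}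
    {P : FreeGroup β → Prop} (hT : HasTree φ P) : {c | 0 < wq c φ}.Finite := by
  obtain ⟨X, _, _, _, _, N, al, -, hD, -⟩ := hT
  refine (edgeGen_finite hD).subset fun c hc => ?_
  obtain ⟨c, rfl⟩ := ConjClasses.mk_surjective c
  rw [Set.mem_ofPred_eq, wq_mk hW] at hc
  exact ⟨c, h2 β φ X N al hD c hc, rfl⟩

theorem per_of_commute [Finite β] (hW : WC β) (h2 : RowW2) {φ ψ : Out (FreeGroup β)}
    {P : FreeGroup β → Prop} (hT : HasTree φ P) (hc : Commute ψ φ) {c : FreeGroup β}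
    (h : 0 < wt c φ) : Per c ψ := by
  rw [← per_iff]
  obtain ⟨N, hN, e⟩ := per_of_finite (outPerm _ ψ) (supp_finite hW h2 hT)
    (c := ConjClasses.mk c) fun n => by
      have := wq_conj hW (ψ ^ n) (ConjClasses.mk c) φ
      rw [(hc.pow_left n).mul_inv_cancel, wq_mk hW, map_pow] at this
      rw [Set.mem_ofPred_eq, this]
      exact h
  exact ⟨N, hN, by rw [map_pow, e]⟩

end AsmAux

open AsmAux

/-- Proposition L in `Out F`. -/
theorem propL (hWC : RowWC) (h2 : RowW2) (hL : RowL) {β : Type} [DecidableEq β] [Finite β]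
    {ι κ : Type} [Finite ι] (lt : ι → κ) (e : ι → Out (FreeGroup β))
    (hc : ∀ i j, Commute (e i) (e j)) (hT : ∀ i, HasTree (e i) fun _ => True)
    (hs : ∀ i j k, lt i ≠ lt j → lt i ≠ lt k → lt j ≠ lt k →
      ∃ ψ : Out (FreeGroup β), ψ * e i * ψ⁻¹ = e i * e j ∧ ψ * e k * ψ⁻¹ = e k)
    (h4 : ∀ a b c : κ, ∃ i, lt i ≠ a ∧ lt i ≠ b ∧ lt i ≠ c) (i j : ι) (c : FreeGroup β)
    (h : 0 < wt c (e i)) : 0 < wt c (e j) := by
  have hW := hWC β
  let _ := outAct (FreeGroup β)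
  have key := hL (Out (FreeGroup β)) (ConjClasses (FreeGroup β)) ι κ wq lt e hc
    (fun c φ => hW.nonneg _ φ) (fun ψ c φ => wq_conj hW ψ c φ) (fun c φ φ' h1 h1' hφ => by
      obtain ⟨c, rfl⟩ := ConjClasses.mk_surjective c
      rw [wq_mk hW, wq_mk hW, wq_mk hW]
      exact hW.add c φ φ' ((per_iff c φ).1 h1) ((per_iff c φ').1 h1') hφ)
    (fun c φ k h1 => by
      obtain ⟨c, rfl⟩ := ConjClasses.mk_surjective c
      rw [wq_mk hW, wq_mk hW]
      exact hW.zpow c φ k ((per_iff c φ).1 h1))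
    (fun i => supp_finite hW h2 (hT i)) hs h4 i j (ConjClasses.mk c)
  rw [wq_mk hW, wq_mk hW] at key
  exact key h

theorem ex_fourth {α : Type} {L : Set α} (h4 : 4 ≤ L.ncard) (a b c : α) :
    ∃ x ∈ L, x ≠ a ∧ x ≠ b ∧ x ≠ c := by
  by_contra hne
  have hsub : L ⊆ {a, b, c} := fun x hx => by
    by_contra hx'
    simp only [Set.mem_insert_iff, Set.mem_singleton_iff, not_or] at hx'
    exact hne ⟨x, hx, hx'⟩
  have h1 := Set.ncard_le_ncard hsub (Set.toFinite _)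
  have h2 : ({a, b, c} : Set α).ncard ≤ 3 :=
    (Set.ncard_insert_le _ _).trans (Nat.succ_le_succ ((Set.ncard_insert_le _ _).trans
      (by rw [Set.ncard_singleton])))
  omega

/-- Propositions D and L give the input of section 4. -/
theorem sdl_of (hWC : RowWC) (h1 : RowW1) (h2 : RowW2) (hL : RowL) (hD : PropDOut) : SDL := by
  classical
  intro α β _ _ ρ L hfin h4 h hh d hd
  have hI : ∀ {x : α}, x ∈ L → x ∉ Lᶜ := fun hx hx' => hx' hx
  have hT : ∀ l : α × Bool, l.1 ∈ L → HasTree (ρ (tau l d)) fun _ => True := fun l hl => by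
    obtain ⟨y, hy, hy1, -, -⟩ := ex_fourth h4 l.1 l.1 l.1
    obtain ⟨y', hy', hy1', hy2', -⟩ := ex_fourth h4 l.1 y y
    exact hD β _ fun _ => star_tau' ρ hy1.symm hy1'.symm hy2'.symm (hI hl) (hI hy) (hI hy') hd
  have : Finite L := hfin
  have key := propL hWC h2 hL (ι := L × Bool) (fun i => (i.1 : α))
    (fun i => ρ (tau ((i.1 : α), i.2) d))
    (fun i j => by
      by_cases hij : i = j
      · rw [hij]
      · refine (tau_commute (I := Lᶜ) (fun e => hij ?_) (hI i.1.2) (hI j.1.2) hd hd).map ρ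
        exact Prod.ext (Subtype.ext (Prod.ext_iff.1 e).1) (Prod.ext_iff.1 e).2)
    (fun i => hT _ i.1.2)
    (fun i j k hij hik hjk => by
      obtain ⟨ψ, e1, -, e3⟩ := slide_exists_out (I := Lᶜ) (y := (i.1 : α)) i.2
        (j := ((j.1 : α), j.2)) (Ne.symm hij) (hI i.1.2) (hI j.1.2)
      refine ⟨ρ ψ, ?_, ?_⟩
      · rw [← map_inv, ← map_mul, ← map_mul, e1 d hd, map_mul]
      · rw [← map_inv, ← map_mul, ← map_mul, e3 ((k.1 : α), k.2) (Ne.symm hik)
          (fun e => hjk (congrArg Prod.fst e).symm) (hI k.1.2) d hd])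
    (fun a b c => by
      obtain ⟨x, hx, hx'⟩ := ex_fourth h4 a b c
      exact ⟨(⟨x, hx⟩, true), hx'⟩)
  obtain ⟨X, i1, i2, i3, i4, N, al, hne, hDe, hNI, hfg, -⟩ := hT h hh
  refine ⟨X, i1, i2, i3, i4, N, al, hne, hDe, hNI, hfg, fun c hc h' hh' d' hd' => ?_⟩
  obtain ⟨y, hy, hy1, -, -⟩ := ex_fourth h4 h'.1 h'.1 h'.1
  have h3 : 0 < wt c (ρ (tau (y, true) d)) :=
    key (⟨h.1, hh⟩, h.2) (⟨y, hy⟩, true) c (h1 β _ X N al hDe c hc)
  exact per_of_commute (hWC β) h2 (hT (y, true) hy)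
    ((tau_commute (I := Lᶜ) (fun e => hy1 (congrArg Prod.fst e).symm) (hI hh') (hI hy)
      hd' hd).map ρ) h3

end

end Pool.Agent.MP_3ce0a0_al.Q2T9
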