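import Pool.Agent.MP_3ce0a0_al.Q2T1.Defs
import Pool.Agent.MP_3ce0a0_al.Q2T15.Defs

/-! Section 3 of the page: projections to the axis of `c`, the twisting number `wt`, and the data
of a Dehn twist tree that this section uses. -/

set_option autoImplicit false

namespace Pool.Agent.MP_3ce0a0_al.Q2T9

open Pool.Agent.MP_3ce0a0_al.H79 Pool.Agent.MP_3ce0a0_al.Q2T1 Pool.Agent.MP_3ce0a0_al.Q2T15
open Subgroup

noncomputable section

section General

variable {G : Type} [Group G]

/-- `c` is non-trivial and generates its centraliser. -/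
def RF (c : G) : Prop := c ≠ 1 ∧ ∀ g, Commute g c → g ∈ zpowers c

/-- The conjugacy class of `c` is periodic under the outer automorphism `φ`. -/
def Per (c : G) (φ : Out G) : Prop :=
  ∃ N : ℕ, 0 < N ∧ ∃ β : MulAut G, mkOut G β = φ ^ N ∧ β c = c

/-- `c` generates the stabiliser of an edge. -/
def EdgeGen (X : Type) [MetricSpace X] [MulAction G X] (c : G) : Prop :=
  ∃ x y : X, dist x y = 1 ∧ ∀ g : G, (g • x = x ∧ g • y = y) ↔ g ∈ zpowers c

/-- The part of Proposition D that section 3 uses; `al v` is the lift of `φ ^ N` that centralises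
the stabiliser of `v`. -/
structure Dehn (φ : Out G) (X : Type) [MetricSpace X] [MulAction G X] (N : ℕ)
    (al : X → MulAut G) : Prop where
  cofin : ∃ E : Set (X × X), E.Finite ∧ ∀ x y : X, dist x y = 1 →
    ∃ e ∈ E, ∃ g : G, x = g • e.1 ∧ y = g • e.2
  edge : ∀ x y : X, dist x y = 1 →
    ∃ c : G, RF c ∧ ∀ g : G, (g • x = x ∧ g • y = y) ↔ g ∈ zpowers c
  nonab : ∀ v : X, ∃ g h : G, g • v = v ∧ h • v = v ∧ ¬ Commute g h
  pos : 0 < N
  lift : ∀ v, mkOut G (al v) = φ ^ N
  cent : ∀ (v : X) (g : G), g • v = v → al v g = g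
  twist : ∀ x y : X, dist x y = 1 →
    ∃ u : G, u ≠ 1 ∧ u • x = x ∧ u • y = y ∧ al y = MulAut.conj u * al x
  act : ∀ v : X, ∃ σ : X → X, (∀ x y z, Btw x y z → Btw (σ x) (σ y) (σ z)) ∧
    (∀ (g : G) (x : X), σ (g • x) = al v g • σ x) ∧ σ v = v ∧ ∀ y, dist v y = 1 → σ y = y
  ell : ∀ g : G, Per g φ → ∃ x : X, g • x = x

end General

variable {α : Type} [DecidableEq α]

/-- Twice the Gromov product of `x` and `y` at `1`. -/
def gp (x y : FreeGroup α) : ℤ := (x.norm : ℤ) + y.norm - (x⁻¹ * y).norm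

theorem ex_pos (c g : FreeGroup α) :
    ∃ j : ℤ, ∀ i : ℤ, (c ^ (-j) * g).norm ≤ (c ^ (-i) * g).norm :=
  ⟨Function.argmin fun j : ℤ => (c ^ (-j) * g).norm,
    fun i => Function.argmin_le (fun j : ℤ => (c ^ (-j) * g).norm) i⟩

/-- An exponent `j` for which `c ^ j` is closest to `g`. -/
def pos (c g : FreeGroup α) : ℤ := (ex_pos c g).choose

theorem pos_spec (c g : FreeGroup α) (i : ℤ) :
    (c ^ (-pos c g) * g).norm ≤ (c ^ (-i) * g).norm := (ex_pos c g).choose_spec i

/-- The displacement `pos c (β g) - pos c g` varies by at most `K` outside `⟨c⟩`. -/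
def DlLe (c : FreeGroup α) (β : MulAut (FreeGroup α)) (K : ℝ) : Prop :=
  ∀ g g', g ∉ zpowers c → g' ∉ zpowers c →
    ((|(pos c (β g) - pos c g) - (pos c (β g') - pos c g')| : ℤ) : ℝ) ≤ K

/-- The admissible growth rates of the variation along the powers of `φ`. -/
def Slopes (c : FreeGroup α) (φ : Out (FreeGroup α)) : Set ℝ :=
  {r | 0 ≤ r ∧ ∃ K : ℝ, ∀ (j : ℕ) (β : MulAut (FreeGroup α)),
    mkOut (FreeGroup α) β = φ ^ j → β c = c → DlLe c β (r * j + K)}

open Classical in
/-- The twisting number of `φ` about `c`. -/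
def wt (c : FreeGroup α) (φ : Out (FreeGroup α)) : ℝ :=
  if RF c ∧ Per c φ then sInf (Slopes c φ) else 0

end

end Pool.Agent.MP_3ce0a0_al.Q2T9
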