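import Pool.Agent.MP_3ce0a0_al.Q2T9.Spec

/-! Row W1: edge groups have positive twisting number. -/

set_option autoImplicit false

namespace Pool.Agent.MP_3ce0a0_al.Q2T9

open Pool.Agent.MP_3ce0a0_al.H79 Pool.Agent.MP_3ce0a0_al.Q2T1 Pool.Agent.MP_3ce0a0_al.Q2T15
open Subgroup

namespace W1Aux

theorem out {G : Type} [Group G] (c : G) {g h : G} (hn : ¬ Commute g h) :
    g ∉ zpowers c ∨ h ∉ zpowers c := by
  by_contra hc
  push Not at hc
  obtain ⟨⟨i, rfl⟩, ⟨j, rfl⟩⟩ := hc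
  exact hn (Commute.zpow_zpow_self c i j)

theorem pow_fix {G : Type} [Group G] (b : MulAut G) {g : G} (h : b g = g) (q : ℕ) :
    (b ^ q) g = g := by
  induction q with
  | zero => simp
  | succ q ih => rw [pow_succ, MulAut.mul_apply, h, ih]

theorem pow_conj {G : Type} [Group G] (b : MulAut G) {u h : G} (hu : b u = u)
    (hh : b h = u⁻¹ * h * u) (q : ℕ) : (b ^ q) h = (u ^ q)⁻¹ * h * u ^ q := by
  induction q with
  | zero => simp
  | succ q ih =>
    rw [pow_succ', MulAut.mul_apply, ih, map_mul, map_mul, map_inv, map_pow, hu, hh, pow_succ']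
    group

theorem slope {s K : ℝ} (h : ∀ q : ℕ, (q : ℝ) ≤ s * q + K) : 1 ≤ s := by
  by_contra hc
  push Not at hc
  obtain ⟨q, hq⟩ := exists_nat_gt (K / (1 - s))
  have h1 := h q
  rw [div_lt_iff₀ (by linarith)] at hq
  nlinarith

end W1Aux

theorem w1 : RowW1Of := by
  intro hMal hPC hDC α _ _ φ X _ _ _ _ N al D c hc
  obtain ⟨x, y, hxy, hc⟩ := hc
  obtain ⟨d, hd, hd'⟩ := D.edge x y hxy
  have hdc : d ∈ zpowers c := (hc d).1 ((hd' d).2 (mem_zpowers d))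
  have hrf : RF c := by
    obtain ⟨i, hi⟩ := hdc
    refine ⟨fun h => hd.1 (by rw [← hi, h]; simp), fun g hg => ?_⟩
    exact (hc g).1 ((hd' g).2 (hd.2 g (hi ▸ hg.zpow_right i)))
  have hcx : c • x = x := ((hc c).2 (mem_zpowers c)).1
  have hb : al x c = c := D.cent x c hcx
  have hper : Per c φ := ⟨N, D.pos, al x, D.lift x, hb⟩
  obtain ⟨u, hu1, hux, huy, hal⟩ := D.twist x y hxy
  obtain ⟨k, hk⟩ := (hc u).1 ⟨hux, huy⟩
  have hk' : c ^ k = u := hk
  have hk0 : k ≠ 0 := fun h => hu1 (by rw [← hk', h, zpow_zero])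
  obtain ⟨g, hgx, hg⟩ : ∃ g : FreeGroup α, g • x = x ∧ g ∉ zpowers c := by
    obtain ⟨g, h, h1, h2, h3⟩ := D.nonab x
    exact (W1Aux.out c h3).elim (fun h => ⟨_, h1, h⟩) fun h => ⟨_, h2, h⟩
  obtain ⟨h, hhy, hh⟩ : ∃ g : FreeGroup α, g • y = y ∧ g ∉ zpowers c := by
    obtain ⟨g, h, h1, h2, h3⟩ := D.nonab y
    exact (W1Aux.out c h3).elim (fun h => ⟨_, h1, h⟩) fun h => ⟨_, h2, h⟩
  have hbh : al x h = u⁻¹ * h * u := by
    have h1 := D.cent y h hhy
    rw [hal, MulAut.mul_apply, MulAut.conj_apply] at h1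
    rw [← h1]
    conv_lhs => rw [h1]
    group
  obtain ⟨K1, h1⟩ := (hPC α).p1 c hrf.1
  obtain ⟨K3, h3⟩ := (hPC α).p3 c c hrf.1
  have hnc : ¬ Commute c (h * c * h⁻¹) := fun hcm => hh (hMal α c h hrf hcm)
  have hN : (0 : ℝ) < N := by exact_mod_cast D.pos
  rw [wt, if_pos ⟨hrf, hper⟩]
  refine lt_of_lt_of_le (one_div_pos.2 hN) (le_csInf ((hDC α).ne c φ hrf hper) ?_)
  rintro r ⟨-, K, hK⟩
  rw [div_le_iff₀ hN]
  refine W1Aux.slope (K := K + K1 + K3) fun q => ?_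
  have h4 := hK (N * q) (al x ^ q) (by rw [map_pow, D.lift x, pow_mul]) (W1Aux.pow_fix _ hb q)
    g h hg hh
  have h5 : (al x ^ q) h = c ^ (-(k * q)) * (h * c ^ (k * q)) := by
    rw [W1Aux.pow_conj _ (D.cent x u hux) hbh q, ← hk', zpow_neg, zpow_mul, zpow_natCast,
      mul_assoc]
  rw [W1Aux.pow_fix _ (D.cent x g hgx) q, h5] at h4
  have h6 := h1 (h * c ^ (k * q)) (-(k * q))
  have h7 := h3 h (k * q) hnc
  have h8 : (q : ℤ) ≤ |k * q| := by
    rw [abs_mul, Nat.abs_cast]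
    exact le_mul_of_one_le_left (Int.natCast_nonneg q) (Int.one_le_abs hk0)
  generalize pos c (c ^ (-(k * q)) * (h * c ^ (k * q))) = A at h4 h6
  generalize pos c (h * c ^ (k * q)) = B at h6 h7
  generalize pos c h = C at h4 h7
  generalize pos c g = E at h4
  generalize k * q = m at h6 h8
  have h9 : (q : ℤ) ≤ |E - E - (A - C)| + K1 + K3 := by
    rw [abs_le] at h6 h7
    rcases abs_cases m with h | h <;> rcases abs_cases (E - E - (A - C)) with h' | h' <;> omega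
  have h10 : (q : ℝ) ≤ ((|E - E - (A - C)| : ℤ) : ℝ) + K1 + K3 := by exact_mod_cast h9
  push_cast at h4 h10 ⊢
  nlinarith

end Pool.Agent.MP_3ce0a0_al.Q2T9
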