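import Pool.Agent.MP_3ce0a0_al.Q2T9.Defs

/-! Row statements of block T9. -/

set_option autoImplicit false

namespace Pool.Agent.MP_3ce0a0_al.Q2T9

open Pool.Agent.MP_3ce0a0_al.H79 Pool.Agent.MP_3ce0a0_al.Q2T1 Pool.Agent.MP_3ce0a0_al.Q2T15
open Subgroup

/-- The Cayley graph is a tree. -/
def RowH4 : Prop := ∀ (α : Type) [DecidableEq α] (x y z : FreeGroup α),
  min (gp x y) (gp y z) ≤ gp x z

/-- Lengths of powers. -/
def RowNP : Prop := ∀ (α : Type) [DecidableEq α] (c : FreeGroup α), c ≠ 1 →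
  ∃ s t : ℕ, 0 < t ∧ ∀ i : ℕ, 0 < i → (c ^ i).norm = s + t * i

/-- Bounded cancellation. -/
def RowBCL : Prop := ∀ (α : Type) [DecidableEq α] [Finite α] (β : MulAut (FreeGroup α)) (K : ℤ),
  ∃ K' : ℤ, ∀ x y : FreeGroup α, gp x y ≤ K → gp (β x) (β y) ≤ K'

/-- Axes of non-commuting elements have bounded overlap. -/
def RowOV : Prop := ∀ (α : Type) [DecidableEq α] (c d : FreeGroup α), ¬ Commute c d →
  ∃ K : ℤ, ∀ k i : ℤ, gp (c ^ k) (d ^ i) ≤ K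

/-- The properties of `pos` that are used. -/
structure PC (α : Type) [DecidableEq α] : Prop where
  p1 : ∀ c : FreeGroup α, c ≠ 1 → ∃ K : ℤ, ∀ (g : FreeGroup α) (k : ℤ),
    |pos c (c ^ k * g) - pos c g - k| ≤ K
  p2 : ∀ (β : MulAut (FreeGroup α)) (c : FreeGroup α), c ≠ 1 → ∃ K : ℤ, ∀ g,
    |pos (β c) (β g) - pos c g| ≤ K
  p3 : ∀ c c₀ : FreeGroup α, c ≠ 1 → ∃ K : ℤ, ∀ (x : FreeGroup α) (i : ℤ),
    ¬ Commute c (x * c₀ * x⁻¹) → |pos c (x * c₀ ^ i) - pos c x| ≤ K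
  p4 : ∀ c h : FreeGroup α, c ≠ 1 → ∃ K : ℤ, ∀ x, |pos c (x * h) - pos c x| ≤ K
  p5 : ∀ c : FreeGroup α, c ≠ 1 → ∃ K : ℤ, ∀ (H : Set (FreeGroup α)) (g : FreeGroup α),
    (∀ i : ℤ, c ^ i ∉ H) → g ∈ H → ∃ (x : FreeGroup α) (a : α) (s : ℤ), (s = 1 ∨ s = -1) ∧
      x ∉ H ∧ x * FreeGroup.of a ^ s ∈ H ∧ |pos c x - pos c g| ≤ K

def RowPC : Prop := ∀ (α : Type) [DecidableEq α] [Finite α], PC α

def RowPCOf : Prop := RowH4 → RowNP → RowBCL → RowOV → RowPC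

/-- Malnormality of the group generated by a root-free element. -/
def RowMal : Prop := ∀ (α : Type) (c g : FreeGroup α), RF c → Commute c (g * c * g⁻¹) →
  g ∈ zpowers c

/-- Calculus of the variation, and the criterion for slopes. -/
structure DC (α : Type) [DecidableEq α] : Prop where
  ex : ∀ (c : FreeGroup α) (β : MulAut (FreeGroup α)), c ≠ 1 → β c = c → ∃ K, DlLe c β K
  mul : ∀ (c : FreeGroup α) (β γ : MulAut (FreeGroup α)) (K K' : ℝ), γ c = c →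
    DlLe c β K → DlLe c γ K' → DlLe c (β * γ) (K + K')
  inv : ∀ (c : FreeGroup α) (β : MulAut (FreeGroup α)) (K : ℝ), β c = c →
    DlLe c β K → DlLe c β⁻¹ K
  same : ∀ c : FreeGroup α, RF c → ∃ K₀ : ℝ, ∀ (β γ : MulAut (FreeGroup α)) (K : ℝ),
    β c = c → γ c = c → mkOut _ β = mkOut _ γ → DlLe c β K → DlLe c γ (K + K₀)
  conj : ∀ (c : FreeGroup α) (ψ : MulAut (FreeGroup α)), c ≠ 1 → ∃ K₀ : ℝ,
    ∀ (β : MulAut (FreeGroup α)) (K : ℝ), DlLe c β K → DlLe (ψ c) (ψ * β * ψ⁻¹) (K + K₀)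
  crit : ∀ (c : FreeGroup α) (φ : Out (FreeGroup α)) (N : ℕ) (β : MulAut (FreeGroup α))
    (r K : ℝ), RF c → 0 < N → mkOut _ β = φ ^ N → β c = c → 0 ≤ r →
    (∀ q : ℕ, DlLe c (β ^ q) (r * (q * N) + K)) → r ∈ Slopes c φ
  ne : ∀ (c : FreeGroup α) (φ : Out (FreeGroup α)), RF c → Per c φ → (Slopes c φ).Nonempty

def RowDC : Prop := ∀ (α : Type) [DecidableEq α] [Finite α], DC α

def RowDCOf : Prop := RowMal → RowPC → RowDC

/-- The twisting number is a conjugation invariant seminorm on commuting families. -/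
structure WC (α : Type) [DecidableEq α] : Prop where
  nonneg : ∀ (c : FreeGroup α) (φ : Out (FreeGroup α)), 0 ≤ wt c φ
  conj : ∀ (ψ : MulAut (FreeGroup α)) (c : FreeGroup α) (φ : Out (FreeGroup α)),
    wt (ψ c) (mkOut _ ψ * φ * (mkOut _ ψ)⁻¹) = wt c φ
  add : ∀ (c : FreeGroup α) (φ φ' : Out (FreeGroup α)), Per c φ → Per c φ' → Commute φ φ' →
    wt c (φ * φ') ≤ wt c φ + wt c φ'
  zpow : ∀ (c : FreeGroup α) (φ : Out (FreeGroup α)) (k : ℤ), Per c φ →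
    wt c (φ ^ k) = |(k : ℝ)| * wt c φ

def RowWC : Prop := ∀ (α : Type) [DecidableEq α] [Finite α], WC α

def RowWCOf : Prop := RowDC → RowWC

/-- (W1) Edge groups have positive twisting number. -/
def RowW1 : Prop := ∀ (α : Type) [DecidableEq α] [Finite α] (φ : Out (FreeGroup α)) (X : Type)
  [MetricSpace X] [IsSimp X] [MulAction (FreeGroup α) X] [IsIsometricSMul (FreeGroup α) X]
  (N : ℕ) (al : X → MulAut (FreeGroup α)), Dehn φ X N al →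
  ∀ c : FreeGroup α, EdgeGen X c → 0 < wt c φ

def RowW1Of : Prop := RowMal → RowPC → RowDC → RowW1

/-- On the elements that send `v` beyond a given edge at `v`, `pos c` is almost constant. -/
def RowSide : Prop := ∀ (α : Type) [DecidableEq α] [Finite α] (X : Type)
  [MetricSpace X] [IsSimp X] [MulAction (FreeGroup α) X] [IsIsometricSMul (FreeGroup α) X],
  (∀ x y : X, dist x y = 1 →
    ∃ d : FreeGroup α, RF d ∧ ∀ g : FreeGroup α, (g • x = x ∧ g • y = y) ↔ g ∈ zpowers d) →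
  ∀ (c : FreeGroup α) (v : X), RF c → c • v = v → ¬ EdgeGen X c →
  ∃ K : ℤ, ∀ (y : X) (g g' : FreeGroup α), dist v y = 1 → Btw v y (g • v) → Btw v y (g' • v) →
    |pos c g - pos c g'| ≤ K

def RowSideOf : Prop := RowPC → RowSide

/-- (W2) Only edge groups have positive twisting number. -/
def RowW2 : Prop := ∀ (α : Type) [DecidableEq α] [Finite α] (φ : Out (FreeGroup α)) (X : Type)
  [MetricSpace X] [IsSimp X] [MulAction (FreeGroup α) X] [IsIsometricSMul (FreeGroup α) X]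
  (N : ℕ) (al : X → MulAut (FreeGroup α)), Dehn φ X N al →
  ∀ c : FreeGroup α, 0 < wt c φ → EdgeGen X c

def RowW2Of : Prop := RowSide → RowDC → RowW2

/-- The abstract form of Proposition L. -/
def RowL : Prop := ∀ (Γ C ι κ : Type) [Group Γ] [MulAction Γ C] [Finite ι] (w : C → Γ → ℝ)
  (lt : ι → κ) (e : ι → Γ),
  (∀ i j, Commute (e i) (e j)) →
  (∀ c φ, 0 ≤ w c φ) →
  (∀ ψ c φ, w (ψ • c) (ψ * φ * ψ⁻¹) = w c φ) →
  (∀ c φ φ', (∃ N : ℕ, 0 < N ∧ φ ^ N • c = c) → (∃ N : ℕ, 0 < N ∧ φ' ^ N • c = c) →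
    Commute φ φ' → w c (φ * φ') ≤ w c φ + w c φ') →
  (∀ c φ (k : ℤ), (∃ N : ℕ, 0 < N ∧ φ ^ N • c = c) → w c (φ ^ k) = |(k : ℝ)| * w c φ) →
  (∀ i, {c | 0 < w c (e i)}.Finite) →
  (∀ i j k, lt i ≠ lt j → lt i ≠ lt k → lt j ≠ lt k →
    ∃ ψ : Γ, ψ * e i * ψ⁻¹ = e i * e j ∧ ψ * e k * ψ⁻¹ = e k) →
  (∀ a b c : κ, ∃ i, lt i ≠ a ∧ lt i ≠ b ∧ lt i ≠ c) →
  ∀ i j c, 0 < w c (e i) → 0 < w c (e j)

end Pool.Agent.MP_3ce0a0_al.Q2T9
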